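import Pool.Agent.R665.She.Prod
import Pool.Agent.R779.BC.ArtThm

/-!
# Shephard groups in classes closed under subgroups, directed unions and extensions
-/

set_option autoImplicit false

namespace Pool.Agent.R665.She.BC

open Pool.Agent.Helper741 Pool.Agent.R630.FJ Pool.Agent.R665.Art
open Pool.Agent.R941.BC (Inherit W El W_sub W_union W_ext W_over W_le W_fin)
open Pool.Agent.R779.BC (ExtCl ext_hom pi_fin am fg_le W_extCl triv)

variable {C : ∀ (G : Type) [Group G], Prop}

/-! ### abelian groups -/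

theorem int_mem (hC : ExtCl C) : C (Multiplicative ℤ) := by
  refine hC.sub _ (FreeGroup ℕ) (zpowersHom _ (FreeGroup.of 0)) ?_ hC.free
  intro a b hab
  have h1 : ∀ x : Multiplicative ℤ, FreeGroup.lift (fun _ : ℕ => Multiplicative.ofAdd (1 : ℤ))
      (zpowersHom _ (FreeGroup.of 0) x) = x := by
    intro x
    rw [zpowersHom_apply, map_zpow, FreeGroup.lift_apply_of, ← ofAdd_zsmul]
    simp
  rw [← h1 a, hab, h1 b]

theorem comm_mem (hC : ExtCl C) (hfin : ∀ (G : Type) [Group G] [Finite G], C G) (L : Type)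
    [Group L] (hab : ∀ x y : L, x * y = y * x) : C L := by
  classical
  refine hC.union _ fun H hH => ?_
  let _ : CommGroup H := { (inferInstance : Group H) with
    mul_comm := fun x y => Subtype.ext (hab x.1 y.1) }
  have : Group.FG H := (Group.fg_iff_subgroup_fg _).2 hH
  obtain ⟨ι, j, _, _, p, hp, e, ⟨E⟩⟩ := CommGroup.equiv_free_prod_prod_multiplicative_zmod H
  have hne : ∀ i, NeZero (p i ^ e i) := fun i => ⟨pow_ne_zero _ (hp i).ne_zero⟩
  have h2 : Finite ((i : ι) → Multiplicative (ZMod (p i ^ e i))) := by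
    have : ∀ i, Finite (Multiplicative (ZMod (p i ^ e i))) := fun i =>
      inferInstanceAs (Finite (ZMod (p i ^ e i)))
    exact Pi.finite
  exact hC.sub _ _ E.toMonoidHom E.injective
    (Pool.Agent.R779.BC.prod hC (pi_fin hC (int_mem hC) j) (hfin _))

/-! ### Shephard groups -/

section she

variable {B : Type} (M : CoxeterMatrix B) (p : B → ℕ)

theorem C_equiv (hC : ExtCl C) {B₁ B₂ : Type}
    {M₁ : CoxeterMatrix B₁} {M₂ : CoxeterMatrix B₂} {p₁ : B₁ → ℕ} {p₂ : B₂ → ℕ} (e : B₁ ≃ B₂)
    (h : ∀ i j, M₂ (e i) (e j) = M₁ i j) (hp : ∀ i, p₂ (e i) = p₁ i) (h2 : C (Sh M₂ p₂)) :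
    C (Sh M₁ p₁) :=
  hC.sub _ _ (eqvS e h hp).toMonoidHom (MulEquiv.injective _) h2

theorem C_sub (hC : ExtCl C) (T : Set B) (T' : Set T)
    (h : C (Sh (subM M (Subtype.val '' T')) (fun b => p b.1))) :
    C (Sh (subM (subM M T) T') (fun b => p b.1.1)) :=
  C_equiv hC (Equiv.Set.image Subtype.val T' Subtype.val_injective) (fun _ _ => rfl)
    (fun _ => rfl) h

theorem fin_mem (hC : ExtCl C)
    (hW : ∀ (B : Type) [Finite B] (M : CoxeterMatrix B), C M.Group) (n : ℕ) :
    ∀ (B : Type) [Fintype B] (M : CoxeterMatrix B) (p : B → ℕ), Good M p → Fintype.card B = n →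
      (∀ T : Set B, (∀ i ∈ T, ∀ j ∈ T, M i j ≠ 0) → C (Sh (subM M T) (fun b => p b.1))) →
        C (Sh M p) := by
  classical
  induction n using Nat.strong_induction_on with
  | _ n ih =>
    intro B _ M p hg hn hT
    by_cases h0 : ∀ i j, M i j ≠ 0
    · exact C_equiv hC (Equiv.Set.univ B).symm (fun _ _ => rfl) (fun _ => rfl)
        (hT Set.univ (fun i _ j _ => h0 i j))
    · push Not at h0
      obtain ⟨x, y, hxy⟩ := h0
      have key : ∀ (b : B) (X : Set B), b ∉ X → C (Sh (subM M X) (fun b => p b.1)) := by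
        intro b X hb
        refine ih (Fintype.card X) ?_ X (subM M X) (fun b => p b.1) (hg.sub X) rfl ?_
        · rw [← hn]
          exact Fintype.card_subtype_lt hb
        · intro T' hT'
          apply C_sub M p hC
          apply hT
          rintro _ ⟨i, hi, rfl⟩ _ ⟨j, hj, rfl⟩
          exact hT' i hi j hj
      have hX := key x {b | b ≠ x} (fun h => h rfl)
      have hY := key y {b | b ≠ y} (fun h => h rfl)
      have hK := key x {b | b ≠ x ∧ b ≠ y} (fun h => h.1 rfl)
      have hr : ∀ X : Set B, C (Sh (subM M X) (fun b => p b.1)) → C ↥(She.incl M p X).range := by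
        intro X h
        exact hC.sub _ _
          (MonoidHom.ofInjective (She.incl_inj M p X hg)).symm.toMonoidHom (MulEquiv.injective _) h
      refine ext_hom hC (PhiS M p {b | b ≠ x ∧ b ≠ y} hg) ?_
        (Pool.Agent.R779.BC.fv_mem hC (rho M {b | b ≠ x ∧ b ≠ y}) hK (hW B M))
      refine am hC _ _ _ (She.amg M p x y hxy) _
        (fun k hk h => PhiS_inj M p _ hg k hk h) ?_ ?_
      · exact hC.sub _ _ (Subgroup.subtype _) Subtype.val_injective (hr _ hX)
      · exact hC.sub _ _ (Subgroup.subtype _) Subtype.val_injective (hr _ hY)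

theorem she_mem (hC : ExtCl C)
    (hW : ∀ (B : Type) [Finite B] (M : CoxeterMatrix B), C M.Group) (hg : Good M p)
    (h : ∀ T : Finset B, (∀ i ∈ T, ∀ j ∈ T, M i j ≠ 0) →
      C (Sh (subM M (T : Set B)) (fun t => p t.1))) :
    C (Sh M p) := by
  classical
  refine hC.union _ fun L hL => ?_
  have : Nonempty (Finset B) := ⟨∅⟩
  have hinc : ∀ i j : Finset B, i ⊆ j →
      (She.incl M p (i : Set B)).range ≤ (She.incl M p (j : Set B)).range := by
    intro i j hij
    rintro _ ⟨x, rfl⟩
    exact ⟨She.fm M p hij x, She.incl_fm M p hij x⟩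
  obtain ⟨T, hT⟩ := fg_le (fun T : Finset B => (She.incl M p (T : Set B)).range)
    (fun i j => ⟨i ∪ j, hinc _ _ Finset.subset_union_left, hinc _ _ Finset.subset_union_right⟩)
    (fun g => by
      obtain ⟨i, x, rfl⟩ := She.exists_fin M p g
      exact ⟨i, x, rfl⟩) L hL
  refine hC.sub _ _ (Subgroup.inclusion hT) (Subgroup.inclusion_injective hT)
    (hC.sub _ _ (MonoidHom.ofInjective (She.incl_inj' M p hg (T : Set B))).symm.toMonoidHom
      (MulEquiv.injective _) ?_)
  refine fin_mem hC hW _ (T : Set B) (subM M (T : Set B)) (fun t => p t.1) (hg.sub _) rfl ?_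
  intro T' hT'
  apply C_sub M p hC
  have hf : ((Subtype.val '' T' : Set B)).Finite :=
    Set.Finite.subset T.finite_toSet (by
      rintro _ ⟨t, -, rfl⟩
      exact t.2)
  obtain ⟨S, hS⟩ := hf.exists_finset_coe
  rw [← hS]
  apply h
  intro i hi j hj
  have hi' : i ∈ (Subtype.val '' T' : Set B) := by rw [← hS]; exact hi
  have hj' : j ∈ (Subtype.val '' T' : Set B) := by rw [← hS]; exact hj
  obtain ⟨i', hi1, rfl⟩ := hi'
  obtain ⟨j', hj1, rfl⟩ := hj'
  exact hT' i' hi1 j' hj1

theorem C_prod (hC : ExtCl C) (T : Set B) (hT : Closed M T)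
    (h1 : C (Sh (subM M T) (fun t => p t.1))) (h2 : C (Sh (subM M Tᶜ) (fun t => p t.1))) :
    C (Sh M p) := by
  refine hC.sub _ _ ((proj M p T hT).prod (proj M p Tᶜ hT.compl)) ?_
    (Pool.Agent.R779.BC.prod hC h1 h2)
  intro x y hxy
  have e1 : proj M p T hT x = proj M p T hT y := congrArg Prod.fst hxy
  have e2 : proj M p Tᶜ hT.compl x = proj M p Tᶜ hT.compl y := congrArg Prod.snd hxy
  rw [← decomp M p T hT x, ← decomp M p T hT y, e1, e2]

end she

end Pool.Agent.R665.She.BC
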