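import Pool.Agent.R665.She.BC

/-!
# Shephard groups in classes closed under extensions: irreducible parabolic subgroups
-/

set_option autoImplicit false

namespace Pool.Agent.R665.She.BC

open Pool.Agent.Helper741 Pool.Agent.Y110.FJ CoxeterSystem
open Pool.Agent.R941.BC (Inherit W El W_sub W_union W_ext W_over W_le W_fin)
open Pool.Agent.R779.BC (ExtCl ext_hom W_extCl triv)

/-- two generators: the group is commutative or a central extension of a subgroup of a Coxeter
group -/
theorem two_hom {B : Type} (M : CoxeterMatrix B) (p : B → ℕ) (hg : Good M p) {s t : B}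
    (hst : s ≠ t) (hB : ∀ b, b = s ∨ b = t) (h0 : M s t ≠ 0) :
    (∀ x y : Sh M p, x * y = y * x) ∨ ∃ (N : CoxeterMatrix (Fin 3)) (f : Sh M p →* N.Group),
      f.ker ≤ Subgroup.center (Sh M p) := by
  classical
  have h1 : M s t ≠ 1 := M.off_diagonal s t hst
  have hts : M t s = M s t := M.symmetric t s
  have hev : ∀ b, p b ≠ 1 := by
    intro b hb
    have := hg.1 b
    rw [hb] at this
    exact absurd this (by decide)
  set x := Sh.gen M p s with hx
  set y := Sh.gen M p t with hy
  have hrel : alt x y (M s t) = alt y x (M s t) := Sh.rel s t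
  -- homomorphisms of the Shephard group
  have hlift : ∀ {H : Type} [Group H] (X Y : H), alt X Y (M s t) = alt Y X (M s t) →
      X ^ p s = 1 → Y ^ p t = 1 → ∃ f : Sh M p →* H, f x = X ∧ f y = Y := by
    intro H _ X Y hr hX hY
    let F : B → H := fun b => if b = s then X else Y
    have hs : F s = X := if_pos rfl
    have ht : F t = Y := if_neg (Ne.symm hst)
    refine ⟨Sh.lift F ?_ ?_, ?_, ?_⟩
    · intro i j
      rcases hB i with rfl | rfl <;> rcases hB j with rfl | rfl
      · rfl
      · rw [hs, ht, hr]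
      · rw [hs, ht, hts, hr]
      · rfl
    · intro b
      rcases hB b with rfl | rfl
      · rw [hs, hX]
      · rw [ht, hY]
    · exact (Sh.lift_gen _ _ _ s).trans hs
    · exact (Sh.lift_gen _ _ _ t).trans ht
  have hext : ∀ {H : Type} [Group H] (f g : Sh M p →* H), f x = g x → f y = g y → f = g := by
    intro H _ f g h2 h3
    apply Sh.hom_ext
    intro b
    rcases hB b with rfl | rfl
    · exact h2
    · exact h3
  have hcen : ∀ z : Sh M p, x * z = z * x → y * z = z * y → z ∈ Subgroup.center (Sh M p) := by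
    intro z h2 h3
    apply central_of
    intro b
    rcases hB b with rfl | rfl
    · exact h2
    · exact h3
  have hixx : io M p x = x⁻¹ := io_gen M p s
  have hiyy : io M p y = y⁻¹ := io_gen M p t
  rcases Nat.even_or_odd' (M s t) with ⟨k, hk | hk⟩
  · -- even label
    by_cases hk1 : k = 1
    · -- commuting generators
      rw [hk, hk1, mul_one, alt_two, alt_two] at hrel
      left
      have hxc : x ∈ Subgroup.center (Sh M p) := hcen x rfl hrel.symm
      have hyc : y ∈ Subgroup.center (Sh M p) := hcen y hrel rfl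
      have htop : (⊤ : Subgroup (Sh M p)) ≤ Subgroup.center (Sh M p) := by
        rw [← Sh.closure_range_gen, Subgroup.closure_le]
        rintro _ ⟨b, rfl⟩
        rcases hB b with rfl | rfl
        · exact hxc
        · exact hyc
      intro a b
      exact Subgroup.mem_center_iff.1 (htop (x := b) trivial) a
    · have hr : (x * y) ^ k = (y * x) ^ k := by
        rw [hk, alt_mul_two, alt_mul_two] at hrel
        exact hrel
      have hz : (x * y) ^ k ∈ Subgroup.center (Sh M p) := by
        apply hcen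
        · conv_lhs => rw [hr]
          rw [mul_pow_comm]
        · rw [mul_pow_comm, ← hr]
      set r := rr (p s) (p t) k (hev s) (hev t) hk1 with hrdef
      have q0 : r 0 * r 0 = 1 := rr_sq _ _ _ _ _ _ 0
      have q1 : r 1 * r 1 = 1 := rr_sq _ _ _ _ _ _ 1
      have q2 : r 2 * r 2 = 1 := rr_sq _ _ _ _ _ _ 2
      obtain ⟨f, hf1, hf2⟩ := hlift (r 0 * r 1) (r 1 * r 2) (by
        have e1 : r 0 * r 1 * (r 1 * r 2) = r 0 * r 2 := by
          rw [mul_assoc, ← mul_assoc (r 1) (r 1), q1, one_mul]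
        have e2 : (r 1 * r 2 * (r 0 * r 1)) ^ k = 1 := by
          have e3 : r 1 * r 2 * (r 0 * r 1) = r 1 * (r 2 * r 0) * (r 1)⁻¹ := by
            rw [inv_eq_of_mul_eq_one_right q1]
            group
          rw [e3, conj_pow, rr20, mul_one, mul_inv_cancel]
        rw [hk, alt_mul_two, alt_mul_two, e1, e2, rr02]) (rr01 _ _ _ _ _ _) (rr12 _ _ _ _ _ _)
      obtain ⟨g, hg0, hg1, hg2⟩ := tri_lift (p s) (p t) k (hev s) (hev t) hk1
        (MulAut.conj x * ia M p) (ia M p) (ia M p * MulAut.conj y)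
        (by rw [mul_assoc, ← mul_assoc (ia M p), ia_conj, hixx, ← map_mul, mul_inv_cancel, map_one])
        (ia_sq M p)
        (by rw [← mul_assoc, ia_conj, hiyy, ← map_mul, inv_mul_cancel, map_one])
        (by rw [mul_assoc, ia_sq, mul_one, ← map_pow, Sh.pow, map_one])
        (by rw [← mul_assoc, ia_sq, one_mul, ← map_pow, Sh.pow, map_one])
        (by rw [mul_assoc, ← mul_assoc (ia M p), ia_sq, one_mul, ← map_mul, ← map_pow,
              conj_central M p hz])
      have hgf : g.comp f = MulAut.conj := by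
        apply hext
        · rw [MonoidHom.comp_apply, hf1, map_mul, hrdef, hg0, hg1, mul_assoc, ia_sq, mul_one]
        · rw [MonoidHom.comp_apply, hf2, map_mul, hrdef, hg1, hg2, ← mul_assoc, ia_sq, one_mul]
      refine Or.inr ⟨_, f, fun z hz' => ?_⟩
      apply central_conj
      rw [← hgf, MonoidHom.comp_apply, MonoidHom.mem_ker.1 hz', map_one]
  · -- odd label
    have hpp : p s = p t := hg.2 s t ⟨k, hk⟩
    have hc1 : 2 * k + 1 ≠ 1 := by rw [← hk]; exact h1
    have hd1 : alt x y (M s t) = (x * y) ^ k * x := by rw [hk, alt_mul_two_add_one]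
    have hd2 : alt y x (M s t) = (y * x) ^ k * y := by rw [hk, alt_mul_two_add_one]
    set Δ := (x * y) ^ k * x with hΔ
    have hΔ2 : Δ = (y * x) ^ k * y := by rw [← hd1, hrel, hd2]
    have hxΔ : Δ * x = y * Δ := by
      conv_lhs => rw [hΔ2]
      rw [hΔ, ← mul_assoc, mul_pow_comm]
    have hyΔ : Δ * y = x * Δ := by
      rw [hΔ2, ← mul_assoc, mul_pow_comm, ← hΔ, ← hΔ2, hΔ]
    have hΔc : Δ * Δ ∈ Subgroup.center (Sh M p) := by
      apply hcen
      · rw [← mul_assoc, ← hyΔ, mul_assoc, ← hxΔ, ← mul_assoc]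
      · rw [← mul_assoc, ← hxΔ, mul_assoc, ← hyΔ, ← mul_assoc]
    have hiΔ : io M p Δ = Δ⁻¹ := by
      have e1 := alt_inv_of_rel hrel
      rw [← hixx, ← hiyy, ← map_alt, hd1] at e1
      exact e1
    have hyx : (y * x) ^ (2 * k + 1) = Δ * Δ := by
      have e : Δ * Δ = ((y * x) ^ k * y) * ((x * y) ^ k * x) := congrArg₂ (· * ·) hΔ2 hΔ
      rw [e, ← mul_pow_comm x y, mul_assoc, ← mul_assoc y, ← pow_succ', ← pow_add]
      congr 1
      ring
    have hxD : x⁻¹ * Δ = (y * x) ^ k := by
      rw [hΔ, ← mul_pow_comm, inv_mul_cancel_left]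
    set r := rr (p s) 2 (2 * k + 1) (hev s) (by decide) hc1 with hrdef
    have q0 : r 0 * r 0 = 1 := rr_sq _ _ _ _ _ _ 0
    have q1 : r 1 * r 1 = 1 := rr_sq _ _ _ _ _ _ 1
    have q2 : r 2 * r 2 = 1 := rr_sq _ _ _ _ _ _ 2
    have i0 : (r 0)⁻¹ = r 0 := inv_eq_of_mul_eq_one_right q0
    have i1 : (r 1)⁻¹ = r 1 := inv_eq_of_mul_eq_one_right q1
    have i2 : (r 2)⁻¹ = r 2 := inv_eq_of_mul_eq_one_right q2
    obtain ⟨f, hf1, hf2⟩ := hlift (r 1 * r 0) (r 1 * r 2 * (r 1 * r 0) * (r 1 * r 2)⁻¹) (by
      set S := r 1 * r 0 with hS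
      set D := r 1 * r 2 with hD
      have hDD : D * D = 1 := by
        have := rr12 (p s) 2 (2 * k + 1) (hev s) (by decide) hc1
        rw [pow_two] at this
        exact this
      have hDi : D⁻¹ = D := inv_eq_of_mul_eq_one_right hDD
      have hu : S⁻¹ * D = r 0 * r 2 := by
        rw [hS, hD, mul_inv_rev, i0, i1, mul_assoc, ← mul_assoc (r 1), q1, one_mul]
      have hum : (S⁻¹ * D) ^ (2 * k + 1) = 1 := by
        rw [hu]
        exact rr02 _ _ _ _ _ _
      have hui : (S⁻¹ * D)⁻¹ = D * S := by rw [mul_inv_rev, inv_inv, hDi]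
      have hTS : (D * S * D⁻¹ * S) ^ k = S⁻¹ * D := by
        have e1 : D * S * D⁻¹ * S = ((S⁻¹ * D)⁻¹) ^ 2 := by
          rw [hui, hDi, pow_two]
          group
        rw [e1, ← pow_mul, inv_pow, inv_eq_iff_mul_eq_one, ← pow_succ, hum]
      have e2 : alt S (D * S * D⁻¹) (M s t) = D := by
        rw [hk, alt_mul_two_add_one, ← mul_pow_comm, hTS, mul_inv_cancel_left]
      have e3 : alt (D * S * D⁻¹) S (M s t) = D := by
        rw [hk, alt_mul_two_add_one, hTS]
        calc S⁻¹ * D * (D * S * D⁻¹) = S⁻¹ * (D * D) * S * D⁻¹ := by group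
          _ = D := by rw [hDD, hDi]; group
      rw [e2, e3]) (rr10 _ _ _ _ _ _) (by
      rw [conj_pow, ← hpp, rr10, mul_one, mul_inv_cancel])
    obtain ⟨g, hg0, hg1, hg2⟩ := tri_lift (p s) 2 (2 * k + 1) (hev s) (by decide) hc1
      (MulAut.conj x⁻¹ * ia M p) (ia M p) (ia M p * MulAut.conj Δ)
      (by rw [mul_assoc, ← mul_assoc (ia M p), ia_conj, map_inv (io M p), hixx, ← map_mul, inv_inv,
            inv_mul_cancel, map_one])
      (ia_sq M p)
      (by rw [← mul_assoc, ia_conj, hiΔ, ← map_mul, inv_mul_cancel, map_one])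
      (by rw [mul_assoc, ia_sq, mul_one, ← map_pow, inv_pow, Sh.pow, inv_one, map_one])
      (by rw [← mul_assoc, ia_sq, one_mul, ← map_pow, pow_two, conj_central M p hΔc])
      (by
        rw [mul_assoc, ← mul_assoc (ia M p), ia_sq, one_mul, ← map_mul, ← map_pow, hxD, ← pow_mul,
          mul_comm k, pow_mul, hyx, conj_central M p (Subgroup.pow_mem _ hΔc k)])
    have hgf : g.comp f = MulAut.conj := by
      have hi : (ia M p)⁻¹ = ia M p := inv_eq_of_mul_eq_one_right (ia_sq M p)
      have e1 : g (r 1 * r 0) = MulAut.conj x := by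
        rw [map_mul, hrdef, hg0, hg1]
        have e2 := ia_conj M p x⁻¹
        rw [map_inv (io M p), hixx, inv_inv, mul_assoc] at e2
        exact e2
      have e3 : g (r 1 * r 2) = MulAut.conj Δ := by
        rw [map_mul, hrdef, hg1, hg2, ← mul_assoc, ia_sq, one_mul]
      apply hext
      · rw [MonoidHom.comp_apply, hf1, e1]
      · rw [MonoidHom.comp_apply, hf2, map_mul, map_mul, map_inv, e1, e3, ← map_mul, ← map_inv,
          ← map_mul, hxΔ, mul_inv_cancel_right]
    refine Or.inr ⟨_, f, fun z hz' => ?_⟩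
    apply central_conj
    rw [← hgf, MonoidHom.comp_apply, MonoidHom.mem_ker.1 hz', map_one]


variable {C : ∀ (G : Type) [Group G], Prop}

/-- two generators -/
theorem two_mem (hC : ExtCl C) (hfin : ∀ (G : Type) [Group G] [Finite G], C G)
    (hW : ∀ (B : Type) [Finite B] (M : CoxeterMatrix B), C M.Group) {B : Type}
    (M : CoxeterMatrix B) (p : B → ℕ) (hg : Good M p) {s t : B} (hst : s ≠ t)
    (hB : ∀ b, b = s ∨ b = t) (h0 : M s t ≠ 0) : C (Sh M p) := by
  rcases two_hom M p hg hst hB h0 with h | ⟨N, f, hf⟩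
  · exact comm_mem hC hfin _ h
  · refine ext_hom hC f (comm_mem hC hfin _ fun x y => ?_) (hW _ N)
    exact Subtype.ext (Subgroup.mem_center_iff.1 (hf y.2) x.1)

theorem irr_step (hC : ExtCl C) {B : Type} (M : CoxeterMatrix B) (p : B → ℕ)
    (h : ∀ T : Finset B, (∀ i ∈ T, ∀ j ∈ T, M i j ≠ 0) → Irr M (T : Set B) →
      C (Sh (subM M (T : Set B)) (fun t => p t.1))) (n : ℕ) :
    ∀ T : Finset B, T.card = n → (∀ i ∈ T, ∀ j ∈ T, M i j ≠ 0) →
      C (Sh (subM M (T : Set B)) (fun t => p t.1)) := by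
  classical
  induction n using Nat.strong_induction_on with
  | _ n ih =>
    intro T hn hT
    by_cases hI : Irr M (T : Set B)
    · exact h T hT hI
    · unfold Irr at hI
      push Not at hI
      obtain ⟨X, hX, ⟨a, ha⟩, ⟨b, hb⟩, h2⟩ := hI
      let X' : Finset B := T.filter (· ∈ X)
      let Y' : Finset B := T.filter (· ∉ X)
      have key : ∀ Z : Finset B, Z ⊂ T → C (Sh (subM M (Z : Set B)) (fun t => p t.1)) := by
        intro Z hZ
        exact ih Z.card (hn ▸ Finset.card_lt_card hZ) Z rfl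
          (fun i hi j hj => hT i (hZ.1 hi) j (hZ.1 hj))
      let T' : Set ((T : Set B) : Type) := {t | t.1 ∈ X}
      have hc : Closed (subM M (T : Set B)) T' := by
        intro i hi j hj
        exact h2 i.1 hi j.1 ⟨j.2, hj⟩
      have e1 : (Subtype.val '' T' : Set B) = (X' : Set B) := by
        ext z
        constructor
        · rintro ⟨t, ht, rfl⟩
          exact Finset.mem_coe.2 (Finset.mem_filter.2 ⟨t.2, ht⟩)
        · intro hz
          rw [Finset.mem_coe, Finset.mem_filter] at hz
          exact ⟨⟨z, hz.1⟩, hz.2, rfl⟩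
      have e2 : (Subtype.val '' (T'ᶜ) : Set B) = (Y' : Set B) := by
        ext z
        constructor
        · rintro ⟨t, ht, rfl⟩
          exact Finset.mem_coe.2 (Finset.mem_filter.2 ⟨t.2, ht⟩)
        · intro hz
          rw [Finset.mem_coe, Finset.mem_filter] at hz
          exact ⟨⟨z, hz.1⟩, hz.2, rfl⟩
      refine C_prod (subM M (T : Set B)) (fun t => p t.1) hC T' hc ?_ ?_
      · refine C_sub M p hC (T : Set B) T' ?_
        rw [e1]
        refine key X' ⟨Finset.filter_subset _ _, fun hs => ?_⟩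
        exact hb.2 (Finset.mem_filter.1 (hs hb.1)).2
      · refine C_sub M p hC (T : Set B) (T'ᶜ) ?_
        rw [e2]
        refine key Y' ⟨Finset.filter_subset _ _, fun hs => ?_⟩
        exact (Finset.mem_filter.1 (hs (hX ha))).2 ha

/-- reduction to irreducible parabolic subgroups without label infinity -/
theorem she_irr (hC : ExtCl C)
    (hW : ∀ (B : Type) [Finite B] (M : CoxeterMatrix B), C M.Group) {B : Type}
    (M : CoxeterMatrix B) (p : B → ℕ) (hg : Good M p)
    (h : ∀ T : Finset B, (∀ i ∈ T, ∀ j ∈ T, M i j ≠ 0) → Irr M (T : Set B) →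
      C (Sh (subM M (T : Set B)) (fun t => p t.1))) : C (Sh M p) :=
  she_mem M p hC hW hg fun T hT => irr_step hC M p h T.card T rfl hT

theorem she_loc (hC : ExtCl C) (hfin : ∀ (G : Type) [Group G] [Finite G], C G)
    (hW : ∀ (B : Type) [Finite B] (M : CoxeterMatrix B), C M.Group) {B : Type}
    (M : CoxeterMatrix B) (p : B → ℕ) (hg : Good M p) (hL : LocRed M) : C (Sh M p) := by
  classical
  refine she_irr hC hW M p hg fun T hT hI => ?_
  by_cases h : ∀ i ∈ T, ∀ j ∈ T, i ≠ j → M i j = 2
  · refine comm_mem hC hfin _ ?_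
    have hgen : ∀ i j, Sh.gen (subM M (T : Set B)) (fun t => p t.1) i *
        Sh.gen (subM M (T : Set B)) (fun t => p t.1) j =
        Sh.gen (subM M (T : Set B)) (fun t => p t.1) j *
        Sh.gen (subM M (T : Set B)) (fun t => p t.1) i := by
      intro i j
      by_cases hij : i = j
      · rw [hij]
      · have h1 := Sh.rel (M := subM M (T : Set B)) (p := fun t => p t.1) i j
        have h2 : subM M (T : Set B) i j = 2 := h i.1 i.2 j.1 j.2 (fun h' => hij (Subtype.ext h'))
        rw [h2, alt_two, alt_two] at h1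
        exact h1
    have htop : (⊤ : Subgroup (Sh (subM M (T : Set B)) (fun t => p t.1))) ≤
        Subgroup.center _ := by
      rw [← Sh.closure_range_gen, Subgroup.closure_le]
      rintro _ ⟨b, rfl⟩
      exact central_of _ _ fun i => hgen i b
    intro x y
    exact Subgroup.mem_center_iff.1 (htop (x := y) trivial) x
  · push Not at h
    obtain ⟨s, hs, t, ht, hst, h2⟩ := h
    have hT2 : ∀ b ∈ T, b = s ∨ b = t := by
      by_contra hcon
      push Not at hcon
      obtain ⟨b, hb, hbs, hbt⟩ := hcon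
      obtain ⟨i, hi, j, hj, hij⟩ := hI {s, t} (by
        rintro z (rfl | rfl)
        · exact hs
        · exact ht) ⟨s, Or.inl rfl⟩ ⟨b, hb, by
          rintro (h' | h')
          · exact hbs h'
          · exact hbt h'⟩
      have hjT : j ∈ T := hj.1
      have hjs : j ≠ s := fun h' => hj.2 (Or.inl h')
      have hjt : j ≠ t := fun h' => hj.2 (Or.inr h')
      rcases hi with rfl | rfl
      · have h3 := hL t i j (Ne.symm hst) (Ne.symm hjs) (Ne.symm hjt) (hT _ ht _ hs)
          (hT _ hs _ hjT) (hT _ ht _ hjT)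
        rcases h3 with h3 | h3
        · rw [M.symmetric] at h3
          exact h2 h3
        · exact hij h3
      · have h3 := hL s i j hst (Ne.symm hjt) (Ne.symm hjs) (hT _ hs _ ht)
          (hT _ ht _ hjT) (hT _ hs _ hjT)
        rcases h3 with h3 | h3
        · exact h2 h3
        · exact hij h3
    refine two_mem hC hfin hW (subM M (T : Set B)) (fun t => p t.1) (hg.sub _)
      (s := ⟨s, hs⟩) (t := ⟨t, ht⟩) (fun h' => hst (congrArg Subtype.val h')) ?_
      (hT _ hs _ ht)
    intro b
    rcases hT2 b.1 b.2 with h' | h'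
    · left
      exact Subtype.ext h'
    · right
      exact Subtype.ext h'

theorem fin_W {B S : ∀ (G : Type) [Group G], Prop} (h : Inherit B S) (hF : W B (FreeGroup ℕ))
    (G : Type) [Group G] [Finite G] : W B G := by
  refine W_fin G ⊥ ?_ (triv (W_extCl h hF) _)
  exact ⟨by rw [Subgroup.index_bot]; exact Nat.card_pos.ne'⟩

/-- **Shephard groups in the class `W B`** -/
theorem she_main {B S : ∀ (G : Type) [Group G], Prop} (h : Inherit B S)
    (hF : W B (FreeGroup ℕ))
    (hW : ∀ (V : Type) [Finite V] (M : CoxeterMatrix V), W B M.Group) {V : Type}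
    (M : CoxeterMatrix V) (p : V → ℕ) (hg : Good M p) :
    (W B (Sh M p) ↔ ∀ T : Finset V, (∀ i ∈ T, ∀ j ∈ T, M i j ≠ 0) → Irr M (T : Set V) →
      W B ↥(Subgroup.closure (Sh.gen M p '' (T : Set V)))) ∧
    (LocRed M → W B (Sh M p)) ∧
    (W B (Sh M p) → ∀ (G : Type) [Group G] (N : Subgroup G) [N.Normal],
      Nonempty (Sh M p ≃* N) →
        (W B (G ⧸ N) → W B G) ∧ (Countable G → (B (G ⧸ N) → B G) ∧ (S (G ⧸ N) → S G))) := by
  have hC := W_extCl h hF
  refine ⟨⟨?_, ?_⟩, ?_, ?_⟩
  · intro h1 T _ _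
    exact W_sub _ _ (Subgroup.subtype _) Subtype.val_injective h1
  · intro h1
    refine she_irr hC hW M p hg fun T hT hI => ?_
    have h2 := h1 T hT hI
    rw [← range_incl] at h2
    exact W_sub _ _ (MonoidHom.ofInjective (incl_inj' M p hg _)).toMonoidHom
      (MulEquiv.injective _) h2
  · intro hL
    exact she_loc hC (fin_W h hF) hW M p hg hL
  · intro h1 G _ N _ he
    obtain ⟨e⟩ := he
    have h3 : W B N := W_sub N (Sh M p) e.symm.toMonoidHom e.symm.injective h1
    exact ⟨fun hQ => W_ext h G N h3 hQ, fun _ => ⟨fun hB => h.ext G N hB (W_over G N h3),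
      fun hS => h.extS G N hS (W_over G N h3)⟩⟩

end Pool.Agent.R665.She.BC
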