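import Pool.Agent.R665.Art.Phi

/-!
# Shephard groups

The Shephard group of a Coxeter matrix `M` and orders `p` is the quotient of the Artin group of `M` by
the relations `s ^ p s = 1` (`p s = 0`: no relation).
-/

set_option autoImplicit false

namespace Pool.Agent.R665.She

open Pool.Agent.Helper741 Pool.Agent.R665.Art

/-- the Shephard group -/
abbrev Sh {B : Type} (M : CoxeterMatrix B) (p : B → ℕ) : Type :=
  Artin M ⧸ Subgroup.normalClosure (Set.range fun b => Artin.gen M b ^ p b)

namespace Sh

variable {B : Type} (M : CoxeterMatrix B) (p : B → ℕ)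

/-- the projection of the Artin group -/
abbrev pr : Artin M →* Sh M p := QuotientGroup.mk' _

/-- the generator -/
def gen (b : B) : Sh M p := pr M p (Artin.gen M b)

variable {M p}

theorem rel (i j : B) : alt (gen M p i) (gen M p j) (M i j) =
    alt (gen M p j) (gen M p i) (M i j) := by
  unfold gen
  rw [← map_alt, ← map_alt, Artin.rel]

theorem pow (b : B) : gen M p b ^ p b = 1 := by
  unfold gen
  rw [← map_pow]
  exact (QuotientGroup.eq_one_iff _).2 (Subgroup.subset_normalClosure ⟨b, rfl⟩)

/-- the universal property -/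
def lift {G : Type} [Group G] (f : B → G)
    (hf : ∀ i j, alt (f i) (f j) (M i j) = alt (f j) (f i) (M i j)) (hp : ∀ b, f b ^ p b = 1) :
    Sh M p →* G :=
  QuotientGroup.lift _ (Artin.lift f hf) (by
    intro x hx
    have h1 : Subgroup.normalClosure (Set.range fun b => Artin.gen M b ^ p b) ≤
        (Artin.lift f hf).ker := by
      rw [← Subgroup.normalClosure_subset_iff]
      rintro _ ⟨b, rfl⟩
      show Artin.lift f hf (Artin.gen M b ^ p b) = 1
      rw [map_pow, Artin.lift_gen, hp]
    exact h1 hx)

theorem lift_gen {G : Type} [Group G] (f : B → G)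
    (hf : ∀ i j, alt (f i) (f j) (M i j) = alt (f j) (f i) (M i j)) (hp : ∀ b, f b ^ p b = 1)
    (i : B) : lift f hf hp (gen M p i) = f i := by
  show Artin.lift f hf (Artin.gen M i) = f i
  rw [Artin.lift_gen]

theorem hom_ext {G : Type} [Group G] {f g : Sh M p →* G}
    (h : ∀ i, f (gen M p i) = g (gen M p i)) : f = g := by
  apply QuotientGroup.monoidHom_ext
  apply Artin.hom_ext
  exact h

theorem closure_range_gen : Subgroup.closure (Set.range (gen M p)) = ⊤ := by
  have h1 : Set.range (gen M p) = pr M p '' Set.range (Artin.gen M) := by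
    rw [← Set.range_comp]
    rfl
  rw [h1, ← MonoidHom.map_closure, Artin.closure_range_gen, ← MonoidHom.range_eq_map]
  exact MonoidHom.range_eq_top.2 (QuotientGroup.mk'_surjective _)

theorem induction {P : Sh M p → Prop} (one : P 1) (gen : ∀ i, P (gen M p i))
    (mul : ∀ x y, P x → P y → P (x * y)) (inv : ∀ x, P x → P x⁻¹) (x : Sh M p) : P x := by
  have hx : x ∈ Subgroup.closure (Set.range (Sh.gen M p)) := by
    rw [closure_range_gen]; trivial
  induction hx using Subgroup.closure_induction with
  | mem x hx => obtain ⟨i, rfl⟩ := hx; exact gen i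
  | one => exact one
  | mul x y _ _ hx hy => exact mul x y hx hy
  | inv x _ hx => exact inv x hx

end Sh

/-- the orders are even, and equal at the ends of an odd label -/
def Good {B : Type} (M : CoxeterMatrix B) (p : B → ℕ) : Prop :=
  (∀ b, Even (p b)) ∧ ∀ i j, Odd (M i j) → p i = p j

theorem Good.sub {B : Type} {M : CoxeterMatrix B} {p : B → ℕ} (h : Good M p) (T : Set B) :
    Good (subM M T) (fun t : T => p t.1) :=
  ⟨fun b => h.1 b.1, fun i j hij => h.2 i.1 j.1 hij⟩

/-- the map of the parabolic subgroup -/
def incl {B : Type} (M : CoxeterMatrix B) (p : B → ℕ) (T : Set B) :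
    Sh (subM M T) (fun t : T => p t.1) →* Sh M p :=
  Sh.lift (fun t => Sh.gen M p t.1) (fun i j => Sh.rel i.1 j.1) (fun b => Sh.pow b.1)

theorem incl_gen {B : Type} (M : CoxeterMatrix B) (p : B → ℕ) (T : Set B) (t : T) :
    incl M p T (Sh.gen _ _ t) = Sh.gen M p t.1 := Sh.lift_gen _ _ _ t

open CoxeterSystem Classical in
/-- conjugate generators have equal orders -/
theorem conj_order {B : Type} {M : CoxeterMatrix B} {p : B → ℕ} (h : Good M p) {s t : B}
    {v : M.Group} (hv : v * (cs M).simple t = (cs M).simple s * v) : p t = p s := by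
  let F : B → ℤˣ := fun b => if p b = p t then -1 else 1
  have hF : M.IsLiftable F := by
    intro i j
    have hs : ∀ b, F b * F b = 1 := by
      intro b
      show (if p b = p t then (-1 : ℤˣ) else 1) * (if p b = p t then -1 else 1) = 1
      split_ifs <;> simp
    rcases Nat.even_or_odd (M i j) with h1 | h1
    · obtain ⟨k, hk⟩ := h1
      rw [hk, pow_add, ← mul_pow]
      have h2 : F i * F j * (F i * F j) = 1 := by
        rw [mul_mul_mul_comm, hs, hs, mul_one]
      rw [h2, one_pow]
    · have h2 : F i = F j := by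
        show (if p i = p t then (-1 : ℤˣ) else 1) = (if p j = p t then -1 else 1)
        rw [h.2 i j h1]
      rw [h2, hs, one_pow]
  let χ : M.Group →* ℤˣ := (cs M).lift ⟨F, hF⟩
  have hχ : ∀ b, χ ((cs M).simple b) = F b := fun b => (cs M).lift_apply_simple hF b
  have h1 := congrArg χ hv
  rw [map_mul, map_mul, mul_comm, hχ, hχ] at h1
  have h2 := mul_right_cancel h1
  by_contra hne
  have h3 : F s = 1 := if_neg (fun h' => hne h'.symm)
  have h4 : F t = -1 := if_pos rfl
  rw [h3, h4] at h2
  exact absurd h2 (by decide)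

end Pool.Agent.R665.She
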