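import Pool.Agent.R665.She.Inf
import Pool.Agent.R665.Art.Ext

/-!
# Extensions by Shephard groups
-/

set_option autoImplicit false

namespace Pool.Agent.R665.She

open Pool.Agent.Helper741 Pool.Agent.Y110.FJ Pool.Agent.R779.FJ
open Pool.Agent.Y462.SS (Closed)

open Classical in
/-- the orders of a labelling -/
noncomputable def pe {S : Type} (m : S → S → ℕ) (x : S) : ℕ := if Even (m x x) then m x x else 0

/-- the condition on a label -/
def Ok {S : Type} (m : S → S → ℕ) (x y : S) : Prop :=
  m x y = m y x ∧ m x y ≠ 1 ∧ (Odd (m x y) → pe m x = pe m y)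

theorem Ok.symm {S : Type} {m : S → S → ℕ} {x y : S} (h : Ok m x y) : Ok m y x :=
  ⟨h.1.symm, h.1 ▸ h.2.1, fun h' => (h.2.2 (h.1 ▸ h')).symm⟩

open Classical in
/-- the Coxeter matrix of a labelling -/
noncomputable def cmS {S : Type} (m : S → S → ℕ) : CoxeterMatrix S where
  M := Matrix.of fun x y => if x = y then 1 else if Ok m x y then m x y else 0
  isSymm := by
    ext x y
    simp only [Matrix.transpose_apply, Matrix.of_apply]
    by_cases h : x = y
    · rw [if_pos h, if_pos h.symm]
    · rw [if_neg h, if_neg (Ne.symm h)]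
      by_cases h1 : Ok m x y
      · rw [if_pos h1, if_pos h1.symm, h1.1]
      · rw [if_neg h1, if_neg (fun h2 : Ok m y x => h1 h2.symm)]
  diagonal x := by simp
  off_diagonal x y h := by
    simp only [Matrix.of_apply]
    rw [if_neg h]
    split_ifs with h1
    · exact h1.2.1
    · exact zero_ne_one

theorem cmS_self {S : Type} (m : S → S → ℕ) (x : S) : cmS m x x = 1 := (cmS m).diagonal x

theorem cmS_ne {S : Type} (m : S → S → ℕ) {x y : S} (h : x ≠ y) (h1 : Ok m x y) :
    cmS m x y = m x y := by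
  classical
  show (if x = y then 1 else if Ok m x y then m x y else 0) = _
  rw [if_neg h, if_pos h1]

theorem cmS_zero {S : Type} (m : S → S → ℕ) {x y : S} (h : cmS m x y ≠ 0) (hne : x ≠ y) :
    m x y ≠ 0 := by
  classical
  intro h0
  apply h
  show (if x = y then 1 else if Ok m x y then m x y else 0) = _
  rw [if_neg hne]
  split_ifs
  · exact h0
  · rfl

theorem good_cmS {S : Type} (m : S → S → ℕ) : Good (cmS m) (pe m) := by
  classical
  refine ⟨fun b => ?_, fun i j h => ?_⟩
  · unfold pe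
    split_ifs with h
    · exact h
    · exact Even.zero
  · by_cases hij : i = j
    · rw [hij]
    · have h1 : (if i = j then 1 else if Ok m i j then m i j else 0) = cmS m i j := rfl
      rw [if_neg hij] at h1
      by_cases h2 : Ok m i j
      · rw [if_pos h2] at h1
        exact h2.2.2 (h1 ▸ h)
      · rw [if_neg h2] at h1
        rw [← h1] at h
        exact absurd h (by decide)

theorem pe_emb {S T : Type} {m : S → S → ℕ} {n : T → T → ℕ} (f : S → T) (hf : Emb m n f)
    (x : S) : pe n (f x) = pe m x := by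
  unfold pe
  rw [hf.2]

theorem ok_emb {S T : Type} {m : S → S → ℕ} {n : T → T → ℕ} (f : S → T) (hf : Emb m n f)
    (x y : S) : Ok n (f x) (f y) ↔ Ok m x y := by
  unfold Ok
  rw [hf.2, hf.2, pe_emb f hf, pe_emb f hf]

theorem cmS_emb {S T : Type} {m : S → S → ℕ} {n : T → T → ℕ} (f : S → T) (hf : Emb m n f)
    (x y : S) : cmS n (f x) (f y) = cmS m x y := by
  classical
  by_cases h : x = y
  · subst h
    rw [cmS_self, cmS_self]
  · show (if f x = f y then 1 else if Ok n (f x) (f y) then n (f x) (f y) else 0) =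
      (if x = y then 1 else if Ok m x y then m x y else 0)
    rw [if_neg (fun h' => h (hf.1 h')), if_neg h, hf.2]
    simp only [ok_emb f hf]

open Classical in
/-- the labelling of a Coxeter matrix and orders -/
noncomputable def lab {S : Type} (M : CoxeterMatrix S) (p : S → ℕ) (x y : S) : ℕ :=
  if x = y then p x else M x y

theorem lab_self {S : Type} (M : CoxeterMatrix S) (p : S → ℕ) (x : S) : lab M p x x = p x :=
  if_pos rfl

theorem lab_ne {S : Type} (M : CoxeterMatrix S) (p : S → ℕ) {x y : S} (h : x ≠ y) :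
    lab M p x y = M x y := if_neg h

theorem lab_symm {S : Type} (M : CoxeterMatrix S) (p : S → ℕ) (x y : S) :
    lab M p x y = lab M p y x := by
  by_cases h : x = y
  · rw [h]
  · rw [lab_ne M p h, lab_ne M p (Ne.symm h), M.symmetric]

theorem pe_lab {S : Type} {M : CoxeterMatrix S} {p : S → ℕ} (hg : Good M p) (x : S) :
    pe (lab M p) x = p x := by
  unfold pe
  rw [lab_self, if_pos (hg.1 x)]

theorem cmS_lab {S : Type} {M : CoxeterMatrix S} {p : S → ℕ} (hg : Good M p) (x y : S) :
    cmS (lab M p) x y = M x y := by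
  by_cases h : x = y
  · subst h
    rw [cmS_self, M.diagonal]
  · rw [cmS_ne, lab_ne M p h]
    · exact h
    · refine ⟨lab_symm M p x y, ?_, ?_⟩
      · rw [lab_ne M p h]
        exact M.off_diagonal x y h
      · rw [lab_ne M p h, pe_lab hg, pe_lab hg]
        exact hg.2 x y

/-- Shephard groups as a halo -/
noncomputable def haloS : Halo ℕ where
  obj _ m := Sh (cmS m) (pe m)
  grp _ m := inferInstanceAs (Group (Sh (cmS m) (pe m)))
  map f hf := hmS f (cmS_emb f hf) (pe_emb f hf)
  inj f hf := hmS_inj (good_cmS _) f hf.1 (cmS_emb f hf) (pe_emb f hf)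
  map_id := by
    intro S m x
    have h1 : hmS (fun x => x) (cmS_emb _ (Emb.id m)) (pe_emb _ (Emb.id m)) =
        MonoidHom.id (Sh (cmS m) (pe m)) := by
      apply Sh.hom_ext
      intro v
      rw [hmS_gen]
      rfl
    exact DFunLike.congr_fun h1 x
  map_comp := by
    intro S T U m n k f g hf hg x
    have h1 : (hmS g (cmS_emb g hg) (pe_emb g hg)).comp (hmS f (cmS_emb f hf) (pe_emb f hf)) =
        hmS (g ∘ f) (cmS_emb (g ∘ f) (hg.comp hf)) (pe_emb (g ∘ f) (hg.comp hf)) := by
      apply Sh.hom_ext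
      intro v
      rw [MonoidHom.comp_apply, hmS_gen, hmS_gen, hmS_gen]
      rfl
    exact DFunLike.congr_fun h1 x
  fin := by
    intro S m x
    obtain ⟨A, y, rfl⟩ := exists_fin (cmS m) (pe m) x
    have hlab : ∀ i j : ((A : Set S) : Type), cmS (rs m (A : Set S)) i j = cmS m i.1 j.1 :=
      fun i j => (cmS_emb Subtype.val (emb_val m (A : Set S)) i j).symm
    have hpe : ∀ i : ((A : Set S) : Type), pe (rs m (A : Set S)) i = pe m i.1 :=
      fun i => (pe_emb Subtype.val (emb_val m (A : Set S)) i).symm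
    refine ⟨(A : Set S), A.finite_toSet, hmS (M₁ := subM (cmS m) (A : Set S))
      (M₂ := cmS (rs m (A : Set S))) (p₁ := fun t => pe m t.1) (p₂ := pe (rs m (A : Set S)))
      (fun a => a) hlab hpe y, ?_⟩
    have h1 : (hmS Subtype.val (cmS_emb Subtype.val (emb_val m (A : Set S)))
          (pe_emb Subtype.val (emb_val m (A : Set S)))).comp
        (hmS (M₁ := subM (cmS m) (A : Set S)) (M₂ := cmS (rs m (A : Set S)))
          (p₁ := fun t => pe m t.1) (p₂ := pe (rs m (A : Set S))) (fun a => a) hlab hpe) =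
        incl (cmS m) (pe m) (A : Set S) := by
      apply Sh.hom_ext
      intro v
      rw [MonoidHom.comp_apply, incl_gen]
      exact (congrArg (hmS Subtype.val (cmS_emb Subtype.val (emb_val m (A : Set S)))
          (pe_emb Subtype.val (emb_val m (A : Set S))))
        (hmS_gen (M₁ := subM (cmS m) (A : Set S)) (M₂ := cmS (rs m (A : Set S)))
          (p₁ := fun t => pe m t.1) (p₂ := pe (rs m (A : Set S))) (fun a => a)
          hlab hpe v)).trans (hmS_gen _ _ _ v)
    exact DFunLike.congr_fun h1 y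

/-- **extensions by Shephard groups** -/
theorem she_ext {C : ∀ (G : Type) [Group G], Prop} (hC : ClosedE C)
    (hW : ∀ (B : Type) [Finite B] (M : CoxeterMatrix B), C M.Group) {V : Type}
    (M : CoxeterMatrix V) (p : V → ℕ) (hg : Good M p)
    (h : ∀ T : Finset V, (∀ i ∈ T, ∀ j ∈ T, M i j ≠ 0) →
      C (Sh (subM M (T : Set V)) (fun t => p t.1)))
    (G : Type) [Group G] (N : Subgroup G) [N.Normal] (e : Sh M p ≃* N) (hQ : C (G ⧸ N))
    (hact : ∀ g : G, ∃ (τ : Equiv.Perm V) (n : G), n ∈ N ∧ (∀ v w, M (τ v) (τ w) = M v w) ∧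
      (∀ v, p (τ v) = p v) ∧
      ∀ v : V, g * (e (Sh.gen M p v) : G) * g⁻¹ = n * (e (Sh.gen M p (τ v)) : G) * n⁻¹) :
    C G := by
  classical
  have hperm : S_PERM := Pool.Agent.Y961.FJ.t_perm Pool.Agent.Y529.FJ.t_ext
  have hcrit : S_CRIT := t_crit Pool.Agent.Y529.FJ.t_ext hperm
  let ℓ : V → V → ℕ := lab M p
  let e0 : Sh (cmS ℓ) (pe ℓ) ≃* Sh M p := eqvS (Equiv.refl V) (fun i j => (cmS_lab hg i j).symm)
    (fun i => (pe_lab hg i).symm)
  have he0 : ∀ v, e0 (Sh.gen (cmS ℓ) (pe ℓ) v) = Sh.gen M p v := fun v =>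
    eqvS_gen (M₁ := cmS ℓ) (M₂ := M) (Equiv.refl V) (fun i j => (cmS_lab hg i j).symm)
      (fun i => (pe_lab hg i).symm) v
  refine t_haloC hcrit C hC haloS ℓ ?_ G N (e0.trans e) hQ ?_
  · intro R hR D f hf hfl
    obtain ⟨T, hT, m', ι, θ, hm', hι, hιm, hθ, hιθ, hK⟩ := eppaC 0 R hR.to_subtype (rs ℓ R)
      (fun x y => lab_symm M p x.1 y.1) D f hf hfl
    refine ⟨T, hT, m', ι, θ, hι, hιm, hθ, hιθ, ?_⟩
    show C (Sh (cmS m') (pe m'))
    have hθt : ∀ (t : ℕ) (u v : T), m' (θ^[t] u) (θ^[t] v) = m' u v := by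
      intro t u v
      induction t with
      | zero => rfl
      | succ t ih => rw [Function.iterate_succ_apply', Function.iterate_succ_apply', hθ, ih]
    refine she_mem hC hW (cmS m') (pe m') (good_cmS m') fun U hU => ?_
    obtain ⟨t, ht⟩ := hK (U : Set T) (fun u hu w hw huw => cmS_zero m' (hU u hu w hw) huw)
    choose x hx using ht
    let j : ↥(U : Set T) → V := fun u => (x u.1 u.2 : V)
    have hj : Function.Injective j := by
      intro u v huv
      have e1 : x u.1 u.2 = x v.1 v.2 := Subtype.ext huv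
      have e2 : θ^[t] u.1 = θ^[t] v.1 := by rw [hx u.1 u.2, hx v.1 v.2, e1]
      exact Subtype.ext (θ.injective.iterate t e2)
    have hE1 : Emb (rs m' (U : Set T)) ℓ j := by
      refine ⟨hj, fun u v => ?_⟩
      show ℓ (x u.1 u.2 : V) (x v.1 v.2 : V) = m' u.1 v.1
      rw [← hθt t u.1 v.1, hx u.1 u.2, hx v.1 v.2, hιm]
    have hlab2 : ∀ u v : ↥(U : Set T), M (j u) (j v) = cmS m' u.1 v.1 := by
      intro u v
      rw [← cmS_lab hg, cmS_emb j hE1]
      exact (cmS_emb Subtype.val (emb_val m' (U : Set T)) u v).symm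
    have hpe2 : ∀ u : ↥(U : Set T), p (j u) = pe m' u.1 := by
      intro u
      rw [← pe_lab hg, pe_emb j hE1]
      exact (pe_emb Subtype.val (emb_val m' (U : Set T)) u).symm
    have hfin : (Set.range j).Finite := Set.finite_range j
    have h2 := h hfin.toFinset (by
      intro a ha b hb
      rw [Set.Finite.mem_toFinset] at ha hb
      obtain ⟨u, rfl⟩ := ha
      obtain ⟨v, rfl⟩ := hb
      rw [hlab2 u v]
      exact hU u.1 u.2 v.1 v.2)
    exact C_equiv hC.base (M₁ := subM (cmS m') (U : Set T))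
      (M₂ := subM M ((hfin.toFinset : Finset V) : Set V)) (p₂ := fun t => p t.1)
      ((Equiv.ofInjective j hj).trans (Equiv.setCongr hfin.coe_toFinset.symm))
      (fun u v => hlab2 u v) (fun u => hpe2 u) h2
  · intro g
    obtain ⟨τ, n, hn, hτ, hτp, h1⟩ := hact g
    have hτ' : Emb ℓ ℓ τ := by
      refine ⟨τ.injective, fun x y => ?_⟩
      by_cases hxy : x = y
      · subst hxy
        show lab M p (τ x) (τ x) = lab M p x x
        rw [lab_self, lab_self, hτp]
      · show lab M p (τ x) (τ y) = lab M p x y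
        rw [lab_ne M p hxy, lab_ne M p (fun h' => hxy (τ.injective h')), hτ]
    refine ⟨τ, hτ', ⟨n, hn⟩, fun x => ?_⟩
    have h2 : (MulAut.conj g).toMonoidHom.comp (N.subtype.comp (e0.trans e).toMonoidHom) =
        (MulAut.conj n).toMonoidHom.comp ((N.subtype.comp (e0.trans e).toMonoidHom).comp
          (hmS τ (cmS_emb τ hτ') (pe_emb τ hτ'))) := by
      apply Sh.hom_ext
      intro v
      show g * (e (e0 (Sh.gen (cmS ℓ) (pe ℓ) v)) : G) * g⁻¹ =
        n * (e (e0 (hmS τ (cmS_emb τ hτ') (pe_emb τ hτ') (Sh.gen (cmS ℓ) (pe ℓ) v))) : G) * n⁻¹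
      rw [hmS_gen, he0, he0]
      exact h1 v
    exact DFunLike.congr_fun h2 x

end Pool.Agent.R665.She
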