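import Pool.Agent.R665.She.Ext

/-!
# Shephard groups: statements with parabolic subgroups
-/

set_option autoImplicit false

namespace Pool.Agent.R665.She

open Pool.Agent.Helper741 Pool.Agent.Y110.FJ Pool.Agent.R630.FJ
open Pool.Agent.Y462.SS (Closed)

variable {V : Type} (M : CoxeterMatrix V) (p : V → ℕ)

theorem incl_inj' (hg : Good M p) (T : Set V) : Function.Injective (incl M p T) :=
  hmS_inj (M₁ := subM M T) (M₂ := M) (p₁ := fun t => p t.1) hg Subtype.val Subtype.val_injective
    (fun _ _ => rfl) (fun _ => rfl)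

theorem C_par {C : ∀ (G : Type) [Group G], Prop} (hC : Closed C) (hg : Good M p) (T : Set V) :
    C ↥(Subgroup.closure (Sh.gen M p '' T)) ↔ C (Sh (subM M T) (fun t => p t.1)) := by
  rw [← range_incl]
  constructor
  · intro h
    exact hC.of_injective _ _ (MonoidHom.ofInjective (incl_inj' M p hg T)).toMonoidHom
      (MulEquiv.injective _) h
  · intro h
    exact hC.of_injective _ _ (MonoidHom.ofInjective (incl_inj' M p hg T)).symm.toMonoidHom
      (MulEquiv.injective _) h

theorem she_iff {C : ∀ (G : Type) [Group G], Prop} (hC : ClosedE C)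
    (hW : ∀ (B : Type) [Finite B] (M : CoxeterMatrix B), C M.Group) (hg : Good M p) :
    C (Sh M p) ↔ ∀ T : Finset V, (∀ i ∈ T, ∀ j ∈ T, M i j ≠ 0) →
      C ↥(Subgroup.closure (Sh.gen M p '' (T : Set V))) := by
  constructor
  · intro h T _
    exact hC.base.of_injective _ _ (Subgroup.subtype _) Subtype.val_injective h
  · intro h
    exact she_mem hC hW M p hg fun T hT => (C_par M p hC.base hg _).1 (h T hT)

/-- a homomorphism to a group in `C` which is injective on the parabolic subgroup -/
theorem exists_hom {C : ∀ (G : Type) [Group G], Prop} (hC : ClosedE C)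
    (hW : ∀ (B : Type) [Finite B] (M : CoxeterMatrix B), C M.Group) (hg : Good M p) [Finite V]
    (T : Set V) (hT : C ↥(Subgroup.closure (Sh.gen M p '' T))) :
    ∃ (P : Type) (_ : Group P) (f : Sh M p →* P), C P ∧
      ∀ k ∈ Subgroup.closure (Sh.gen M p '' T), f k = 1 → k = 1 := by
  classical
  have : Fintype V := Fintype.ofFinite V
  refine ⟨_, inferInstance, PhiS M p T hg, fv_mem (Art.rho M T) hC
    ((C_par M p hC.base hg T).1 hT) (hW V M), ?_⟩
  intro k hk h
  rw [← range_incl] at hk
  exact PhiS_inj M p T hg k hk h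

end Pool.Agent.R665.She
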