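import Pool.Agent.R665.She.Main

/-!
# Shephard groups with infinitely many generators
-/

set_option autoImplicit false

namespace Pool.Agent.R665.She

open Pool.Agent.Helper741 Pool.Agent.Y110.FJ
open Pool.Agent.Y462.SS (Closed)

section colim

variable {B : Type} (M : CoxeterMatrix B) (p : B → ℕ)

/-- the Shephard group of a finite set of generators -/
abbrev AF (T : Finset B) : Type := Sh (subM M (T : Set B)) (fun t => p t.1)

/-- the map for an inclusion -/
def fm {S T : Finset B} (h : S ≤ T) : AF M p S →* AF M p T :=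
  Sh.lift (fun t => Sh.gen (subM M (T : Set B)) (fun t => p t.1) ⟨t.1, h t.2⟩)
    (fun i j => Sh.rel (M := subM M (T : Set B)) ⟨i.1, h i.2⟩ ⟨j.1, h j.2⟩)
    (fun i => Sh.pow (M := subM M (T : Set B)) (p := fun t => p t.1) ⟨i.1, h i.2⟩)

theorem fm_gen {S T : Finset B} (h : S ≤ T) (t : (S : Set B)) :
    fm M p h (Sh.gen _ _ t) = Sh.gen (subM M (T : Set B)) (fun t => p t.1) ⟨t.1, h t.2⟩ :=
  Sh.lift_gen _ _ _ t

theorem fm_self {S : Finset B} (h : S ≤ S) (x : AF M p S) : fm M p h x = x := by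
  have h1 : fm M p h = MonoidHom.id _ := by
    apply Sh.hom_ext
    intro t
    exact fm_gen M p h t
  rw [h1]
  rfl

theorem fm_fm {S T U : Finset B} (h : S ≤ T) (h' : T ≤ U) (x : AF M p S) :
    fm M p h' (fm M p h x) = fm M p (h.trans h') x := by
  have h1 : (fm M p h').comp (fm M p h) = fm M p (h.trans h') := by
    apply Sh.hom_ext
    intro t
    rw [MonoidHom.comp_apply, fm_gen, fm_gen, fm_gen]
  exact DFunLike.congr_fun h1 x

theorem incl_fm {S T : Finset B} (h : S ≤ T) (x : AF M p S) :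
    incl M p (T : Set B) (fm M p h x) = incl M p (S : Set B) x := by
  have h1 : (incl M p (T : Set B)).comp (fm M p h) = incl M p (S : Set B) := by
    apply Sh.hom_ext
    intro t
    rw [MonoidHom.comp_apply, fm_gen, incl_gen, incl_gen]
  exact DFunLike.congr_fun h1 x

instance sys : DirectedSystem (AF M p) (fun i j (h : i ≤ j) => ⇑(fm M p h)) where
  map_self := fun _ x => fm_self M p _ x
  map_map := fun _ _ _ hij hjk x => fm_fm M p hij hjk x

/-- the directed colimit -/
abbrev Li : Type := DirectLimit (AF M p) (fun i j (h : i ≤ j) => fm M p h)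

/-- the map to the colimit -/
noncomputable def toLi (T : Finset B) : AF M p T →* Li M p where
  toFun x := ⟦⟨T, x⟩⟧
  map_one' := (DirectLimit.one_def T).symm
  map_mul' x y := (DirectLimit.mul_def T x y).symm

theorem toLi_fm {S T : Finset B} (h : S ≤ T) (x : AF M p S) :
    toLi M p T (fm M p h x) = toLi M p S x := by
  refine Quotient.sound ⟨T, le_refl T, h, ?_⟩
  exact fm_self M p _ _

theorem toLi_gen {S T : Finset B} (t : B) (h : t ∈ S) (h' : t ∈ T) :
    toLi M p S (Sh.gen (subM M (S : Set B)) (fun t => p t.1) ⟨t, h⟩) =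
      toLi M p T (Sh.gen (subM M (T : Set B)) (fun t => p t.1) ⟨t, h'⟩) := by
  classical
  have h1 := toLi_fm M p (S := S) (T := S ∪ T) Finset.subset_union_left
    (Sh.gen (subM M (S : Set B)) (fun t => p t.1) ⟨t, h⟩)
  have h2 := toLi_fm M p (S := T) (T := S ∪ T) Finset.subset_union_right
    (Sh.gen (subM M (T : Set B)) (fun t => p t.1) ⟨t, h'⟩)
  rw [fm_gen] at h1 h2
  rw [← h1, ← h2]

/-- the map of the Shephard group to the colimit -/
noncomputable def ofA : Sh M p →* Li M p :=
  Sh.lift (fun b => toLi M p {b} (Sh.gen _ _ ⟨b, by simp⟩)) (by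
    classical
    intro i j
    have hi : i ∈ ({i, j} : Finset B) := by simp
    have hj : j ∈ ({i, j} : Finset B) := by simp
    rw [toLi_gen M p (S := {i}) (T := {i, j}) i (by simp) hi,
      toLi_gen M p (S := {j}) (T := {i, j}) j (by simp) hj, ← map_alt, ← map_alt]
    congr 1
    exact Sh.rel (M := subM M (({i, j} : Finset B) : Set B)) ⟨i, hi⟩ ⟨j, hj⟩) (by
    intro b
    have h1 := Sh.pow (M := subM M (({b} : Finset B) : Set B)) (p := fun t => p t.1)
      ⟨b, by simp⟩
    rw [← map_pow]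
    exact (congrArg (toLi M p {b}) h1).trans (map_one _))

theorem ofA_incl (T : Finset B) (x : AF M p T) :
    ofA M p (incl M p (T : Set B) x) = toLi M p T x := by
  have h1 : (ofA M p).comp (incl M p (T : Set B)) = toLi M p T := by
    apply Sh.hom_ext
    intro t
    rw [MonoidHom.comp_apply, incl_gen]
    unfold ofA
    rw [Sh.lift_gen]
    exact toLi_gen M p t.1 _ t.2
  exact DFunLike.congr_fun h1 x

theorem exists_fin (y : Sh M p) :
    ∃ (i : Finset B) (x : AF M p i), incl M p (i : Set B) x = y := by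
  classical
  refine Sh.induction (P := fun y => ∃ (i : Finset B) (x : AF M p i),
      incl M p (i : Set B) x = y) ?_ ?_ ?_ ?_ y
  · exact ⟨∅, 1, map_one _⟩
  · intro b
    exact ⟨{b}, Sh.gen _ _ ⟨b, by simp⟩, incl_gen M p _ _⟩
  · rintro _ _ ⟨i, x, rfl⟩ ⟨j, y, rfl⟩
    refine ⟨i ∪ j, fm M p Finset.subset_union_left x * fm M p Finset.subset_union_right y, ?_⟩
    rw [map_mul, incl_fm, incl_fm]
  · rintro _ ⟨i, x, rfl⟩
    exact ⟨i, x⁻¹, map_inv _ _⟩

theorem exists_kill (i : Finset B) (x : AF M p i)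
    (hx : incl M p (i : Set B) x = 1) : ∃ (k : Finset B) (h : i ≤ k), fm M p h x = 1 := by
  have h1 : toLi M p i x = toLi M p i 1 := by
    rw [← ofA_incl, hx, map_one, map_one]
  obtain ⟨k, h2, h3, h4⟩ := Quotient.exact h1
  refine ⟨k, h2, ?_⟩
  have h5 : fm M p h2 x = fm M p h3 1 := h4
  rw [h5, map_one]

theorem colim_mem {C : ∀ (G : Type) [Group G], Prop} (hC : Closed C)
    (h : ∀ T : Finset B, C (AF M p T)) : C (Sh M p) := by
  classical
  exact hC.colim (Finset B)
    (fun i j => ⟨i ∪ j, Finset.subset_union_left, Finset.subset_union_right⟩) (AF M p)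
    (fun i j h => fm M p h) (Sh M p) (fun T => incl M p (T : Set B))
    (fun i h x => fm_self M p h x) (fun i j k h h' x => fm_fm M p h h' x)
    (fun i j h x => incl_fm M p h x) (exists_fin M p) (exists_kill M p) h

end colim

/-- **reduction to the parabolic subgroups without label infinity** -/
theorem she_mem {C : ∀ (G : Type) [Group G], Prop} (hC : ClosedE C)
    (hW : ∀ (B : Type) [Finite B] (M : CoxeterMatrix B), C M.Group) {B : Type}
    (M : CoxeterMatrix B) (p : B → ℕ) (hg : Good M p)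
    (h : ∀ T : Finset B, (∀ i ∈ T, ∀ j ∈ T, M i j ≠ 0) →
      C (Sh (subM M (T : Set B)) (fun t => p t.1))) :
    C (Sh M p) := by
  classical
  refine colim_mem M p hC.base fun T => ?_
  refine fin_mem hC hW _ (T : Set B) (subM M (T : Set B)) (fun t => p t.1) (hg.sub _) rfl ?_
  intro T' hT'
  apply C_sub hC.base M p
  have hf : ((Subtype.val '' T' : Set B)).Finite :=
    Set.Finite.subset T.finite_toSet (by
      rintro _ ⟨t, -, rfl⟩
      exact t.2)
  obtain ⟨S, hS⟩ := hf.exists_finset_coe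
  rw [← hS]
  apply h
  intro i hi j hj
  have hi' : i ∈ (Subtype.val '' T' : Set B) := by rw [← hS]; exact hi
  have hj' : j ∈ (Subtype.val '' T' : Set B) := by rw [← hS]; exact hj
  obtain ⟨i', hi1, rfl⟩ := hi'
  obtain ⟨j', hj1, rfl⟩ := hj'
  exact hT' i' hi1 j' hj1

section hm

variable {S T : Type} {M₁ : CoxeterMatrix S} {M₂ : CoxeterMatrix T} {p₁ : S → ℕ} {p₂ : T → ℕ}

theorem hmS_inj_fin [Finite T] (hg : Good M₂ p₂) (f : S → T) (hf : Function.Injective f)
    (h : ∀ i j, M₂ (f i) (f j) = M₁ i j) (hp : ∀ i, p₂ (f i) = p₁ i) :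
    Function.Injective (hmS f h hp) := by
  classical
  have : Fintype T := Fintype.ofFinite T
  have h1 : hmS f h hp = (incl M₂ p₂ (Set.range f)).comp
      (eqvS (M₂ := subM M₂ (Set.range f)) (p₂ := fun t => p₂ t.1) (Equiv.ofInjective f hf)
        (fun i j => h i j) (fun i => hp i)).toMonoidHom := by
    apply Sh.hom_ext
    intro s
    show _ = incl M₂ p₂ (Set.range f) (eqvS (M₂ := subM M₂ (Set.range f)) (p₂ := fun t => p₂ t.1)
      (Equiv.ofInjective f hf) (fun i j => h i j) (fun i => hp i) (Sh.gen M₁ p₁ s))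
    rw [hmS_gen]
    exact ((congrArg (incl M₂ p₂ (Set.range f)) (eqvS_gen (M₁ := M₁)
      (M₂ := subM M₂ (Set.range f)) (p₂ := fun t => p₂ t.1)
      (Equiv.ofInjective f hf) (fun i j => h i j) (fun i => hp i) s)).trans
        (incl_gen M₂ p₂ (Set.range f) (Equiv.ofInjective f hf s))).symm
  rw [h1]
  exact (incl_inj M₂ p₂ (Set.range f) hg).comp (MulEquiv.injective _)

theorem hmS_inj (hg : Good M₂ p₂) (f : S → T) (hf : Function.Injective f)
    (h : ∀ i j, M₂ (f i) (f j) = M₁ i j) (hp : ∀ i, p₂ (f i) = p₁ i) :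
    Function.Injective (hmS f h hp) := by
  classical
  rw [injective_iff_map_eq_one]
  intro x hx
  obtain ⟨i, x, rfl⟩ := exists_fin M₁ p₁ x
  let f' : ((i : Set S) : Type) → (((i.image f : Finset T) : Set T) : Type) :=
    fun s => ⟨f s.1, by
      rw [Finset.mem_coe, Finset.mem_image]
      exact ⟨s.1, s.2, rfl⟩⟩
  have h1 : (hmS f h hp).comp (incl M₁ p₁ (i : Set S)) =
      (incl M₂ p₂ ((i.image f : Finset T) : Set T)).comp
      (hmS (M₁ := subM M₁ (i : Set S)) (M₂ := subM M₂ ((i.image f : Finset T) : Set T))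
        (p₂ := fun t => p₂ t.1) f' (fun a b => h a.1 b.1) (fun a => hp a.1)) := by
    apply Sh.hom_ext
    intro s
    rw [MonoidHom.comp_apply, MonoidHom.comp_apply, incl_gen, hmS_gen]
    exact ((congrArg (incl M₂ p₂ ((i.image f : Finset T) : Set T))
      (hmS_gen (M₁ := subM M₁ (i : Set S)) (M₂ := subM M₂ ((i.image f : Finset T) : Set T))
        (p₂ := fun t => p₂ t.1) f'
        (fun a b => h a.1 b.1) (fun a => hp a.1) s)).trans (incl_gen M₂ p₂ _ (f' s))).symm
  have h2 := DFunLike.congr_fun h1 x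
  rw [MonoidHom.comp_apply, MonoidHom.comp_apply, hx] at h2
  obtain ⟨k, hk, h3⟩ := exists_kill M₂ p₂ _ _ h2.symm
  let f'' : ((i : Set S) : Type) → ((k : Set T) : Type) := fun s => ⟨f s.1, hk (f' s).2⟩
  have h4 : (fm M₂ p₂ hk).comp (hmS (M₁ := subM M₁ (i : Set S))
      (M₂ := subM M₂ ((i.image f : Finset T) : Set T)) (p₂ := fun t => p₂ t.1) f'
        (fun a b => h a.1 b.1) (fun a => hp a.1)) =
      hmS (M₁ := subM M₁ (i : Set S)) (M₂ := subM M₂ (k : Set T)) (p₂ := fun t => p₂ t.1) f''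
        (fun a b => h a.1 b.1) (fun a => hp a.1) := by
    apply Sh.hom_ext
    intro s
    rw [MonoidHom.comp_apply]
    exact ((congrArg (fm M₂ p₂ hk)
      (hmS_gen (M₁ := subM M₁ (i : Set S)) (M₂ := subM M₂ ((i.image f : Finset T) : Set T))
        (p₂ := fun t => p₂ t.1) f'
        (fun a b => h a.1 b.1) (fun a => hp a.1) s)).trans (fm_gen M₂ p₂ hk (f' s))).trans
      (hmS_gen (M₁ := subM M₁ (i : Set S)) (M₂ := subM M₂ (k : Set T)) (p₂ := fun t => p₂ t.1) f''
        (fun a b => h a.1 b.1) (fun a => hp a.1) s).symm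
  have h5 := DFunLike.congr_fun h4 x
  rw [MonoidHom.comp_apply, h3] at h5
  have h6 : x = 1 := by
    refine hmS_inj_fin (M₁ := subM M₁ (i : Set S)) (M₂ := subM M₂ (k : Set T))
      (p₂ := fun t => p₂ t.1) (hg.sub _) f'' ?_
      (fun a b => h a.1 b.1) (fun a => hp a.1) (h5.symm.trans (map_one _).symm)
    intro a b hab
    exact Subtype.ext (hf (congrArg Subtype.val hab))
  rw [h6, map_one]

end hm

end Pool.Agent.R665.She
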