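import Pool.Agent.R665.She.Phi
import Pool.Agent.R665.Art.Main

/-!
# Shephard groups in Farrell–Jones classes: reduction to the parabolic subgroups without label infinity
-/

set_option autoImplicit false

namespace Pool.Agent.R665.She

open Pool.Agent.Helper741 CoxeterSystem Pool.Agent.R630.FJ Pool.Agent.Y110.FJ Pool.Agent.R665.Art
open Pool.Agent.Y462.SS (Closed)

section general

variable {B : Type} (M : CoxeterMatrix B) (p : B → ℕ)

theorem range_incl (T : Set B) : (incl M p T).range = Subgroup.closure (Sh.gen M p '' T) := by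
  rw [MonoidHom.range_eq_map, ← Sh.closure_range_gen, MonoidHom.map_closure]
  congr 1
  ext z
  constructor
  · rintro ⟨_, ⟨t, rfl⟩, rfl⟩
    exact ⟨t.1, t.2, (incl_gen M p T t).symm⟩
  · rintro ⟨t, ht, rfl⟩
    exact ⟨_, ⟨⟨t, ht⟩, rfl⟩, incl_gen M p T ⟨t, ht⟩⟩

theorem gen_mem {T : Set B} {b : B} (h : b ∈ T) : Sh.gen M p b ∈ (incl M p T).range :=
  ⟨Sh.gen _ _ ⟨b, h⟩, incl_gen M p T ⟨b, h⟩⟩

/-- the amalgamated product decomposition at a label infinity -/
theorem amg (x y : B) (hxy : M x y = 0) :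
    Amg (incl M p {b | b ≠ x}).range (incl M p {b | b ≠ y}).range
      (incl M p {b | b ≠ x ∧ b ≠ y}).range := by
  classical
  have hne : x ≠ y := by
    rintro rfl
    rw [M.diagonal] at hxy
    exact one_ne_zero hxy
  have hyx : M y x = 0 := by rw [M.symmetric]; exact hxy
  refine ⟨?_, ?_, ?_, ?_⟩
  · rw [range_incl, range_incl]
    exact Subgroup.closure_mono (Set.image_mono fun b hb => hb.1)
  · rw [range_incl, range_incl]
    exact Subgroup.closure_mono (Set.image_mono fun b hb => hb.2)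
  · rw [range_incl, range_incl, ← Subgroup.closure_union, ← Sh.closure_range_gen]
    congr 1
    ext z
    constructor
    · rintro (⟨b, -, rfl⟩ | ⟨b, -, rfl⟩) <;> exact ⟨b, rfl⟩
    · rintro ⟨b, rfl⟩
      by_cases h : b = x
      · exact Or.inr ⟨b, fun h' => hne (h.symm.trans h'), rfl⟩
      · exact Or.inl ⟨b, h, rfl⟩
  · intro H _ f g hfg
    let F : B → H := fun b => if hb : b = x then
      g ⟨Sh.gen M p b, gen_mem M p (T := {b | b ≠ y}) (fun h' => hne (hb.symm.trans h'))⟩
      else f ⟨Sh.gen M p b, gen_mem M p (T := {b | b ≠ x}) hb⟩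
    have hX : ∀ t : ({b | b ≠ x} : Set B), F t.1 =
        (f.comp (incl M p {b | b ≠ x}).rangeRestrict) (Sh.gen _ _ t) := by
      intro t
      show (if hb : t.1 = x then _ else _) = _
      rw [dif_neg t.2, MonoidHom.comp_apply]
      congr 1
    have hY : ∀ t : ({b | b ≠ y} : Set B), F t.1 =
        (g.comp (incl M p {b | b ≠ y}).rangeRestrict) (Sh.gen _ _ t) := by
      intro t
      have h1 : (g.comp (incl M p {b | b ≠ y}).rangeRestrict) (Sh.gen _ _ t) =
          g ⟨Sh.gen M p t.1, gen_mem M p (T := {b | b ≠ y}) t.2⟩ := by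
        rw [MonoidHom.comp_apply]
        congr 1
      rw [h1]
      show (if hb : t.1 = x then _ else _) = _
      by_cases hb : t.1 = x
      · rw [dif_pos hb]
      · rw [dif_neg hb]
        exact hfg _ (gen_mem M p (T := {b | b ≠ x ∧ b ≠ y}) ⟨hb, t.2⟩)
    have hF : ∀ i j, alt (F i) (F j) (M i j) = alt (F j) (F i) (M i j) := by
      intro i j
      by_cases h0 : M i j = 0
      · rw [h0, alt_zero, alt_zero]
      by_cases h1 : i ≠ x ∧ j ≠ x
      · rw [hX ⟨i, h1.1⟩, hX ⟨j, h1.2⟩, ← map_alt, ← map_alt]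
        congr 1
        exact Sh.rel (M := subM M {b | b ≠ x}) ⟨i, h1.1⟩ ⟨j, h1.2⟩
      · have h2 : i ≠ y ∧ j ≠ y := by
          constructor
          · rintro rfl
            apply h1
            refine ⟨Ne.symm hne, ?_⟩
            rintro rfl
            exact h0 hyx
          · rintro rfl
            apply h1
            refine ⟨?_, Ne.symm hne⟩
            rintro rfl
            exact h0 hxy
        rw [hY ⟨i, h2.1⟩, hY ⟨j, h2.2⟩, ← map_alt, ← map_alt]
        congr 1
        exact Sh.rel (M := subM M {b | b ≠ y}) ⟨i, h2.1⟩ ⟨j, h2.2⟩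
    have hFp : ∀ b, F b ^ p b = 1 := by
      intro b
      by_cases h : b = x
      · have hb : b ≠ y := fun h' => hne (h.symm.trans h')
        rw [hY ⟨b, hb⟩, ← map_pow]
        have h1 := Sh.pow (M := subM M {b | b ≠ y}) (p := fun t => p t.1) ⟨b, hb⟩
        rw [h1, map_one]
      · rw [hX ⟨b, h⟩, ← map_pow]
        have h1 := Sh.pow (M := subM M {b | b ≠ x}) (p := fun t => p t.1) ⟨b, h⟩
        rw [h1, map_one]
    refine ⟨Sh.lift F hF hFp, ?_, ?_⟩
    · have h1 : (Sh.lift F hF hFp).comp (incl M p {b | b ≠ x}) =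
          f.comp (incl M p {b | b ≠ x}).rangeRestrict := by
        apply Sh.hom_ext
        intro t
        rw [MonoidHom.comp_apply, incl_gen, Sh.lift_gen]
        exact hX t
      rintro ⟨_, a, rfl⟩
      exact DFunLike.congr_fun h1 a
    · have h1 : (Sh.lift F hF hFp).comp (incl M p {b | b ≠ y}) =
          g.comp (incl M p {b | b ≠ y}).rangeRestrict := by
        apply Sh.hom_ext
        intro t
        rw [MonoidHom.comp_apply, incl_gen, Sh.lift_gen]
        exact hY t
      rintro ⟨_, a, rfl⟩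
      exact DFunLike.congr_fun h1 a

end general

section hm

variable {S T : Type} {M₁ : CoxeterMatrix S} {M₂ : CoxeterMatrix T} {p₁ : S → ℕ} {p₂ : T → ℕ}

/-- the homomorphism of Shephard groups for a map which preserves the labels -/
def hmS (f : S → T) (h : ∀ i j, M₂ (f i) (f j) = M₁ i j) (hp : ∀ i, p₂ (f i) = p₁ i) :
    Sh M₁ p₁ →* Sh M₂ p₂ :=
  Sh.lift (fun s => Sh.gen M₂ p₂ (f s)) (fun i j => by
    rw [← h]
    exact Sh.rel _ _) (fun i => by
    rw [← hp]
    exact Sh.pow _)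

theorem hmS_gen (f : S → T) (h : ∀ i j, M₂ (f i) (f j) = M₁ i j) (hp : ∀ i, p₂ (f i) = p₁ i)
    (s : S) : hmS f h hp (Sh.gen M₁ p₁ s) = Sh.gen M₂ p₂ (f s) := Sh.lift_gen _ _ _ s

/-- isomorphic data have isomorphic Shephard groups -/
def eqvS (e : S ≃ T) (h : ∀ i j, M₂ (e i) (e j) = M₁ i j) (hp : ∀ i, p₂ (e i) = p₁ i) :
    Sh M₁ p₁ ≃* Sh M₂ p₂ :=
  MonoidHom.toMulEquiv (hmS e h hp)
    (hmS e.symm (fun i j => by
      rw [← h, e.apply_symm_apply, e.apply_symm_apply]) (fun i => by
      rw [← hp, e.apply_symm_apply]))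
    (by
      apply Sh.hom_ext
      intro s
      rw [MonoidHom.comp_apply, hmS_gen, hmS_gen, e.symm_apply_apply]
      rfl)
    (by
      apply Sh.hom_ext
      intro s
      rw [MonoidHom.comp_apply, hmS_gen, hmS_gen, e.apply_symm_apply]
      rfl)

theorem eqvS_gen (e : S ≃ T) (h : ∀ i j, M₂ (e i) (e j) = M₁ i j) (hp : ∀ i, p₂ (e i) = p₁ i)
    (s : S) : eqvS e h hp (Sh.gen M₁ p₁ s) = Sh.gen M₂ p₂ (e s) := hmS_gen e h hp s

end hm

theorem C_equiv {C : ∀ (G : Type) [Group G], Prop} (hC : Closed C) {B₁ B₂ : Type}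
    {M₁ : CoxeterMatrix B₁} {M₂ : CoxeterMatrix B₂} {p₁ : B₁ → ℕ} {p₂ : B₂ → ℕ} (e : B₁ ≃ B₂)
    (h : ∀ i j, M₂ (e i) (e j) = M₁ i j) (hp : ∀ i, p₂ (e i) = p₁ i) (h2 : C (Sh M₂ p₂)) :
    C (Sh M₁ p₁) :=
  hC.of_injective _ _ (eqvS e h hp).toMonoidHom (MulEquiv.injective _) h2

theorem C_sub {C : ∀ (G : Type) [Group G], Prop} (hC : Closed C) {B : Type}
    (M : CoxeterMatrix B) (p : B → ℕ) (T : Set B) (T' : Set T)
    (h : C (Sh (subM M (Subtype.val '' T')) (fun b => p b.1))) :
    C (Sh (subM (subM M T) T') (fun b => p b.1.1)) :=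
  C_equiv hC (Equiv.Set.image Subtype.val T' Subtype.val_injective) (fun _ _ => rfl)
    (fun _ => rfl) h

theorem fin_mem {C : ∀ (G : Type) [Group G], Prop} (hC : ClosedE C)
    (hW : ∀ (B : Type) [Finite B] (M : CoxeterMatrix B), C M.Group) (n : ℕ) :
    ∀ (B : Type) [Fintype B] (M : CoxeterMatrix B) (p : B → ℕ), Good M p → Fintype.card B = n →
      (∀ T : Set B, (∀ i ∈ T, ∀ j ∈ T, M i j ≠ 0) → C (Sh (subM M T) (fun b => p b.1))) →
        C (Sh M p) := by
  classical
  induction n using Nat.strong_induction_on with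
  | _ n ih =>
    intro B _ M p hg hn hT
    by_cases h0 : ∀ i j, M i j ≠ 0
    · exact C_equiv hC.base (Equiv.Set.univ B).symm (fun _ _ => rfl) (fun _ => rfl)
        (hT Set.univ (fun i _ j _ => h0 i j))
    · push Not at h0
      obtain ⟨x, y, hxy⟩ := h0
      have key : ∀ (b : B) (X : Set B), b ∉ X → C (Sh (subM M X) (fun b => p b.1)) := by
        intro b X hb
        refine ih (Fintype.card X) ?_ X (subM M X) (fun b => p b.1) (hg.sub X) rfl ?_
        · rw [← hn]
          exact Fintype.card_subtype_lt hb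
        · intro T' hT'
          apply C_sub hC.base M p
          apply hT
          rintro _ ⟨i, hi, rfl⟩ _ ⟨j, hj, rfl⟩
          exact hT' i hi j hj
      have hX := key x {b | b ≠ x} (fun h => h rfl)
      have hY := key y {b | b ≠ y} (fun h => h rfl)
      have hK := key x {b | b ≠ x ∧ b ≠ y} (fun h => h.1 rfl)
      have hr : ∀ X : Set B, C (Sh (subM M X) (fun b => p b.1)) → C ↥(incl M p X).range := by
        intro X h
        exact hC.base.of_injective _ _
          (MonoidHom.ofInjective (incl_inj M p X hg)).symm.toMonoidHom (MulEquiv.injective _) h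
      exact Pool.Agent.R665.FJ.am hC _ _ _ (hr _ hX) (hr _ hY)
        (fv_mem (rho M {b | b ≠ x ∧ b ≠ y}) hC hK (hW B M)) (amg M p x y hxy)
        (PhiS M p {b | b ≠ x ∧ b ≠ y} hg) (fun k hk h => PhiS_inj M p _ hg k hk h)

end Pool.Agent.R665.She
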