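import Pool.Agent.R665.She.Def

/-!
# A homomorphism of a Shephard group which is injective on a standard parabolic subgroup
-/

set_option autoImplicit false

namespace Pool.Agent.R665.She

open Pool.Agent.Helper741 CoxeterSystem Pool.Agent.R630.FJ Pool.Agent.R665.Art

variable {B : Type} [Fintype B] [DecidableEq B] (M : CoxeterMatrix B) (p : B → ℕ) (T : Set B)
  [Fintype T]

/-- the parabolic Shephard group -/
abbrev ShT : Type := Sh (subM M T) (fun t : T => p t.1)

/-- the image of a generator -/
noncomputable def qh (s : B) : FW (rho M T) (ShT M p T) :=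
  ⟨fun c => ((labw M T s c).map (Sh.gen (subM M T) (fun t : T => p t.1))).prod, (cs M).simple s⟩

theorem qh_word (ω : List B) : ((ω.map (qh M p T)).prod).right = (cs M).wordProd ω ∧
    ∀ c, ((ω.map (qh M p T)).prod).left c =
      ((lw M T ω c).map (Sh.gen (subM M T) (fun t : T => p t.1))).prod := by
  induction ω with
  | nil => exact ⟨rfl, fun c => rfl⟩
  | cons s ω ih =>
    refine ⟨?_, fun c => ?_⟩
    · rw [List.map_cons, List.prod_cons, SemidirectProduct.mul_right, ih.1,
        CoxeterSystem.wordProd_cons]
      rfl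
    · rw [List.map_cons, List.prod_cons, SemidirectProduct.mul_left, Pi.mul_apply, shAut_apply,
        ih.2, lw, List.map_append, List.prod_append, rho_inv]
      have h1 : (qh M p T s).right⁻¹ = (cs M).simple s := CoxeterSystem.inv_simple _ _
      rw [h1]
      rfl

theorem qh_rel (i j : B) : alt (qh M p T i) (qh M p T j) (M i j) =
    alt (qh M p T j) (qh M p T i) (M i j) := by
  by_cases hij : i = j
  · subst hij
    rfl
  by_cases h0 : M i j = 0
  · rw [h0, alt_zero, alt_zero]
  have r1 := isReduced_aw (cs M) hij (k := M i j) (Or.inr le_rfl)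
  have r2 := isReduced_aw (cs M) (Ne.symm hij) (k := M i j)
    (Or.inr (by rw [M.symmetric j i]))
  have hw : (cs M).wordProd (aw i j (M i j)) = (cs M).wordProd (aw j i (M i j)) := by
    rw [wordProd_aw, wordProd_aw]
    exact alt_comm_of_pow ((cs M).simple_mul_simple_self i) ((cs M).simple_mul_simple_self j)
      ((cs M).simple_mul_simple_pow i j)
  rw [← aw_prod, ← aw_prod]
  apply SemidirectProduct.ext
  · funext c
    rw [(qh_word M p T _).2, (qh_word M p T _).2]
    have h1 := congrArg (Sh.pr (subM M T) (fun t : T => p t.1)) (lw_eq M T r1 r2 hw c)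
    rw [map_list_prod, map_list_prod, List.map_map, List.map_map] at h1
    exact h1
  · rw [(qh_word M p T _).1, (qh_word M p T _).1, hw]

/-- the word written by the powers of a generator -/
theorem lw_pow (hg : Good M p) (s : B) (n : ℕ) (hn : Even n) (c : Om M T) :
    ((lw M T (List.replicate n s) c).map (Sh.gen (subM M T) (fun t : T => p t.1))).prod = 1 ∨
    ∃ t : T, p t.1 = p s ∧
      ((lw M T (List.replicate n s) c).map (Sh.gen (subM M T) (fun t : T => p t.1))).prod =
        Sh.gen (subM M T) (fun t : T => p t.1) t ^ n := by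
  have hmk : ((cs M).simple s • c : Om M T) = QuotientGroup.mk ((cs M).simple s * rep M T c) := by
    conv_lhs => rw [← rep_mk M T c]
    rfl
  by_cases h : ∃ t : T, geo (cs M) (rep M T c) (ee t.1) = ee s
  · right
    have h1 := conj_of_geo M h.choose_spec
    have h2 : ((cs M).simple s • c : Om M T) = c := by
      rw [hmk, ← h1]
      conv_rhs => rw [← rep_mk M T c]
      rw [QuotientGroup.eq]
      refine ⟨((ct M T).simple h.choose)⁻¹, ?_⟩
      rw [map_inv, jj_simple]
      group
    refine ⟨h.choose, conj_order hg h1, ?_⟩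
    have hl : labw M T s c = [h.choose] := by
      unfold labw
      rw [dif_pos h]
    clear hn
    induction n with
    | zero => simp [lw]
    | succ n ih =>
      rw [List.replicate_succ, lw, h2, List.map_append, List.prod_append, ih, hl, pow_succ']
      simp
  · left
    have hl : labw M T s c = [] := by
      unfold labw
      rw [dif_neg h]
    have hl2 : labw M T s ((cs M).simple s • c) = [] := by
      unfold labw
      rw [dif_neg]
      intro h'
      have h1 := conj_of_geo M h'.choose_spec
      have h2 : ((cs M).simple s • ((cs M).simple s • c) : Om M T) = (cs M).simple s • c := by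
        have hmk' : ((cs M).simple s • ((cs M).simple s • c) : Om M T) =
            QuotientGroup.mk ((cs M).simple s * rep M T ((cs M).simple s • c)) := by
          conv_lhs => rw [← rep_mk M T ((cs M).simple s • c)]
          rfl
        rw [hmk', ← h1]
        conv_rhs => rw [← rep_mk M T ((cs M).simple s • c)]
        rw [QuotientGroup.eq]
        refine ⟨((ct M T).simple h'.choose)⁻¹, ?_⟩
        rw [map_inv, jj_simple]
        group
      rw [smul_smul, (cs M).simple_mul_simple_self, one_smul] at h2
      rw [← h2] at h'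
      exact h h'
    obtain ⟨k, rfl⟩ := hn
    induction k with
    | zero => simp [lw]
    | succ k ih =>
      have e1 : k + 1 + (k + 1) = (k + k) + 1 + 1 := by ring
      rw [e1, List.replicate_succ, List.replicate_succ, lw, lw, hl, hl2, smul_smul,
        (cs M).simple_mul_simple_self, one_smul, List.nil_append, List.nil_append, ih]

theorem qh_pow (hg : Good M p) (s : B) : qh M p T s ^ p s = 1 := by
  have h0 : qh M p T s ^ p s = ((List.replicate (p s) s).map (qh M p T)).prod := by
    rw [List.map_replicate, List.prod_replicate]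
  rw [h0]
  apply SemidirectProduct.ext
  · funext c
    rw [(qh_word M p T _).2]
    rcases lw_pow M p T hg s (p s) (hg.1 s) c with h | ⟨t, ht, h⟩
    · rw [h]
      rfl
    · rw [h, ← ht]
      exact Sh.pow t
  · rw [(qh_word M p T _).1]
    obtain ⟨k, hk⟩ := hg.1 s
    have h1 : (cs M).wordProd (List.replicate (p s) s) = (cs M).simple s ^ p s := by
      unfold CoxeterSystem.wordProd
      rw [List.map_replicate, List.prod_replicate]
    rw [h1, hk, ← two_mul, pow_mul, CoxeterSystem.simple_sq, one_pow]
    rfl

theorem qh_mem (s : B) : qh M p T s ∈ FV (rho M T) (ShT M p T) := by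
  show (Set.range (qh M p T s).left).Finite
  refine Set.Finite.subset (Set.Finite.insert 1 (Set.finite_range
    (Sh.gen (subM M T) (fun t : T => p t.1)))) ?_
  rintro _ ⟨c, rfl⟩
  show ((labw M T s c).map (Sh.gen (subM M T) (fun t : T => p t.1))).prod ∈ _
  unfold labw
  split_ifs with h
  · right
    exact ⟨h.choose, by simp⟩
  · left
    rfl

/-- the homomorphism -/
noncomputable def PhiS (hg : Good M p) : Sh M p →* FV (rho M T) (ShT M p T) :=
  Sh.lift (fun s => ⟨qh M p T s, qh_mem M p T s⟩) (by
    intro i j
    apply Subtype.val_injective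
    show (FV (rho M T) (ShT M p T)).subtype _ = (FV (rho M T) (ShT M p T)).subtype _
    rw [map_alt, map_alt]
    exact qh_rel M p T i j) (by
    intro s
    apply Subtype.val_injective
    exact qh_pow M p T hg s)

theorem PhiS_gen (hg : Good M p) (s : B) : (PhiS M p T hg (Sh.gen M p s)).1 = qh M p T s := by
  unfold PhiS
  rw [Sh.lift_gen]

theorem PhiS_incl (hg : Good M p) (a : ShT M p T) :
    (PhiS M p T hg (incl M p T a)).1.left (c0 M T) = a ∧
      (rho M T (PhiS M p T hg (incl M p T a)).1.right) (c0 M T) = c0 M T := by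
  refine Sh.induction (P := fun a => (PhiS M p T hg (incl M p T a)).1.left (c0 M T) = a ∧
      (rho M T (PhiS M p T hg (incl M p T a)).1.right) (c0 M T) = c0 M T) ?_ ?_ ?_ ?_ a
  · rw [map_one, map_one]
    exact ⟨rfl, by
      show (rho M T 1) (c0 M T) = c0 M T
      rw [map_one]
      rfl⟩
  · intro t
    rw [incl_gen, PhiS_gen]
    refine ⟨?_, ?_⟩
    · show ((labw M T t.1 (c0 M T)).map (Sh.gen (subM M T) (fun t : T => p t.1))).prod = _
      rw [lab_base]
      simp
    · show (QuotientGroup.mk ((cs M).simple t.1 * 1) : Om M T) = QuotientGroup.mk 1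
      rw [QuotientGroup.eq, mul_one, mul_one]
      exact ⟨((ct M T).simple t)⁻¹, by rw [map_inv, jj_simple]⟩
  · intro x y hx hy
    rw [map_mul, map_mul]
    have h1 : (rho M T (PhiS M p T hg (incl M p T x)).1.right)⁻¹ (c0 M T) = c0 M T := by
      rw [Equiv.Perm.inv_eq_iff_eq]
      exact hx.2.symm
    refine ⟨?_, ?_⟩
    · show ((PhiS M p T hg (incl M p T x)).1 * (PhiS M p T hg (incl M p T y)).1).left (c0 M T) = _
      rw [SemidirectProduct.mul_left, Pi.mul_apply, shAut_apply, h1, hx.1, hy.1]
    · show (rho M T ((PhiS M p T hg (incl M p T x)).1 *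
        (PhiS M p T hg (incl M p T y)).1).right) (c0 M T) = _
      rw [SemidirectProduct.mul_right, map_mul, Equiv.Perm.mul_apply, hy.2, hx.2]
  · intro x hx
    rw [map_inv, map_inv]
    have h1 : (rho M T (PhiS M p T hg (incl M p T x)).1.right)⁻¹ (c0 M T) = c0 M T := by
      rw [Equiv.Perm.inv_eq_iff_eq]
      exact hx.2.symm
    refine ⟨?_, ?_⟩
    · show ((PhiS M p T hg (incl M p T x)).1⁻¹).left (c0 M T) = _
      rw [SemidirectProduct.inv_left, shAut_apply, map_inv, inv_inv, Pi.inv_apply, hx.2, hx.1]
    · show (rho M T ((PhiS M p T hg (incl M p T x)).1⁻¹).right) (c0 M T) = _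
      rw [SemidirectProduct.inv_right, map_inv, h1]

include p in
theorem incl_inj (hg : Good M p) : Function.Injective (incl M p T) := by
  intro a b hab
  rw [← (PhiS_incl M p T hg a).1, hab, (PhiS_incl M p T hg b).1]

theorem PhiS_inj (hg : Good M p) (k : Sh M p) (hk : k ∈ (incl M p T).range)
    (h : PhiS M p T hg k = 1) : k = 1 := by
  obtain ⟨a, rfl⟩ := hk
  have h1 := (PhiS_incl M p T hg a).1
  rw [h] at h1
  rw [← h1]
  show incl M p T ((1 : FW (rho M T) (ShT M p T)).left (c0 M T)) = 1
  exact map_one _

end Pool.Agent.R665.She
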