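import Pool.Agent.R665.She.Two

/-!
# Shephard groups: direct products, reduction to irreducible parabolic subgroups
-/

set_option autoImplicit false

namespace Pool.Agent.R665.She

open Pool.Agent.Helper741 Pool.Agent.Y110.FJ Pool.Agent.R630.FJ

section prod

variable {B : Type} (M : CoxeterMatrix B) (p : B → ℕ) (T : Set B)

open Classical in
/-- the projection to a union of components -/
noncomputable def proj (hT : Closed M T) : Sh M p →* Sh (subM M T) (fun t => p t.1) :=
  Sh.lift (fun i => if h : i ∈ T then Sh.gen (subM M T) (fun t => p t.1) ⟨i, h⟩ else 1)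
    (proj_rel hT _ (fun i j => Sh.rel (M := subM M T) i j)) (by
    intro b
    split_ifs with h
    · exact Sh.pow (M := subM M T) (p := fun t => p t.1) ⟨b, h⟩
    · exact one_pow _)

theorem proj_mem (hT : Closed M T) {i : B} (h : i ∈ T) :
    proj M p T hT (Sh.gen M p i) = Sh.gen (subM M T) (fun t => p t.1) ⟨i, h⟩ :=
  (Sh.lift_gen _ _ _ i).trans (dif_pos h)

theorem proj_not_mem (hT : Closed M T) {i : B} (h : i ∉ T) : proj M p T hT (Sh.gen M p i) = 1 :=
  (Sh.lift_gen _ _ _ i).trans (dif_neg h)

theorem incl_comm (hT : Closed M T) (a : Sh (subM M T) (fun t => p t.1))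
    (b : Sh (subM M Tᶜ) (fun t => p t.1)) : Commute (incl M p T a) (incl M p Tᶜ b) := by
  refine Sh.induction (P := fun a => Commute (incl M p T a) (incl M p Tᶜ b)) ?_ ?_ ?_ ?_ a
  · rw [map_one]
    exact Commute.one_left _
  · intro i
    refine Sh.induction (P := fun b => Commute (incl M p T (Sh.gen _ _ i)) (incl M p Tᶜ b))
      ?_ ?_ ?_ ?_ b
    · rw [map_one]
      exact Commute.one_right _
    · intro j
      rw [incl_gen, incl_gen]
      have h := Sh.rel (M := M) (p := p) i.1 j.1
      rw [hT i.1 i.2 j.1 j.2, alt_two, alt_two] at h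
      exact h
    · intro x y hx hy
      rw [map_mul]
      exact hx.mul_right hy
    · intro x hx
      rw [map_inv]
      exact hx.inv_right
  · intro x y hx hy
    rw [map_mul]
    exact hx.mul_left hy
  · intro x hx
    rw [map_inv]
    exact hx.inv_left

theorem decomp (hT : Closed M T) (x : Sh M p) :
    incl M p T (proj M p T hT x) * incl M p Tᶜ (proj M p Tᶜ hT.compl x) = x := by
  refine Sh.induction (P := fun x =>
    incl M p T (proj M p T hT x) * incl M p Tᶜ (proj M p Tᶜ hT.compl x) = x) ?_ ?_ ?_ ?_ x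
  · simp
  · intro i
    by_cases hi : i ∈ T
    · rw [proj_mem M p T hT hi, proj_not_mem M p Tᶜ hT.compl (by simpa using hi), incl_gen,
        map_one, mul_one]
    · rw [proj_not_mem M p T hT hi, proj_mem M p Tᶜ hT.compl hi, incl_gen, map_one, one_mul]
  · intro x y hx hy
    have hc := (incl_comm M p T hT (proj M p T hT y) (proj M p Tᶜ hT.compl x)).eq
    rw [map_mul, map_mul, map_mul, map_mul]
    calc _ = incl M p T (proj M p T hT x) * (incl M p T (proj M p T hT y) *
          incl M p Tᶜ (proj M p Tᶜ hT.compl x)) * incl M p Tᶜ (proj M p Tᶜ hT.compl y) := by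
          simp only [mul_assoc]
      _ = (incl M p T (proj M p T hT x) * incl M p Tᶜ (proj M p Tᶜ hT.compl x)) *
          (incl M p T (proj M p T hT y) * incl M p Tᶜ (proj M p Tᶜ hT.compl y)) := by
          rw [hc]
          simp only [mul_assoc]
      _ = x * y := by rw [hx, hy]
  · intro x hx
    have hc := (incl_comm M p T hT (proj M p T hT x) (proj M p Tᶜ hT.compl x)).eq
    rw [map_inv, map_inv, map_inv, map_inv, ← mul_inv_rev, ← hc, hx]

theorem C_prod {C : ∀ (G : Type) [Group G], Prop} (hC : Pool.Agent.Y462.SS.Closed C)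
    (hT : Closed M T) (h1 : C (Sh (subM M T) (fun t => p t.1)))
    (h2 : C (Sh (subM M Tᶜ) (fun t => p t.1))) : C (Sh M p) := by
  refine hC.of_injective _ _ ((proj M p T hT).prod (proj M p Tᶜ hT.compl)) ?_ (hC.prod _ _ h1 h2)
  intro x y hxy
  have e1 : proj M p T hT x = proj M p T hT y := congrArg Prod.fst hxy
  have e2 : proj M p Tᶜ hT.compl x = proj M p Tᶜ hT.compl y := congrArg Prod.snd hxy
  rw [← decomp M p T hT x, ← decomp M p T hT y, e1, e2]

theorem C_comm_gens {C : ∀ (G : Type) [Group G], Prop} (hC : ClosedE C)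
    (h : ∀ i j, Sh.gen M p i * Sh.gen M p j = Sh.gen M p j * Sh.gen M p i) : C (Sh M p) := by
  refine C_central hC (1 : Sh M p →* (Multiplicative ℤ)) hC.base.int ?_
  intro z _
  have htop : (⊤ : Subgroup (Sh M p)) ≤ Subgroup.center (Sh M p) := by
    rw [← Sh.closure_range_gen, Subgroup.closure_le]
    rintro _ ⟨b, rfl⟩
    exact central_of M p fun i => h i b
  exact htop trivial

end prod

/-- there is no partition into two nonempty sets with all labels between them equal to `2` -/
def Irr {B : Type} (M : CoxeterMatrix B) (T : Set B) : Prop :=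
  ∀ X ⊆ T, X.Nonempty → (T \ X).Nonempty → ∃ i ∈ X, ∃ j ∈ T \ X, M i j ≠ 2

theorem irr_step {C : ∀ (G : Type) [Group G], Prop} (hC : ClosedE C) {B : Type}
    (M : CoxeterMatrix B) (p : B → ℕ)
    (h : ∀ T : Finset B, (∀ i ∈ T, ∀ j ∈ T, M i j ≠ 0) → Irr M (T : Set B) →
      C (Sh (subM M (T : Set B)) (fun t => p t.1))) (n : ℕ) :
    ∀ T : Finset B, T.card = n → (∀ i ∈ T, ∀ j ∈ T, M i j ≠ 0) →
      C (Sh (subM M (T : Set B)) (fun t => p t.1)) := by
  classical
  induction n using Nat.strong_induction_on with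
  | _ n ih =>
    intro T hn hT
    by_cases hI : Irr M (T : Set B)
    · exact h T hT hI
    · unfold Irr at hI
      push Not at hI
      obtain ⟨X, hX, ⟨a, ha⟩, ⟨b, hb⟩, h2⟩ := hI
      let X' : Finset B := T.filter (· ∈ X)
      let Y' : Finset B := T.filter (· ∉ X)
      have key : ∀ Z : Finset B, Z ⊂ T → C (Sh (subM M (Z : Set B)) (fun t => p t.1)) := by
        intro Z hZ
        exact ih Z.card (hn ▸ Finset.card_lt_card hZ) Z rfl
          (fun i hi j hj => hT i (hZ.1 hi) j (hZ.1 hj))
      let T' : Set ((T : Set B) : Type) := {t | t.1 ∈ X}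
      have hc : Closed (subM M (T : Set B)) T' := by
        intro i hi j hj
        exact h2 i.1 hi j.1 ⟨j.2, hj⟩
      have e1 : (Subtype.val '' T' : Set B) = (X' : Set B) := by
        ext z
        constructor
        · rintro ⟨t, ht, rfl⟩
          exact Finset.mem_coe.2 (Finset.mem_filter.2 ⟨t.2, ht⟩)
        · intro hz
          rw [Finset.mem_coe, Finset.mem_filter] at hz
          exact ⟨⟨z, hz.1⟩, hz.2, rfl⟩
      have e2 : (Subtype.val '' (T'ᶜ) : Set B) = (Y' : Set B) := by
        ext z
        constructor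
        · rintro ⟨t, ht, rfl⟩
          exact Finset.mem_coe.2 (Finset.mem_filter.2 ⟨t.2, ht⟩)
        · intro hz
          rw [Finset.mem_coe, Finset.mem_filter] at hz
          exact ⟨⟨z, hz.1⟩, hz.2, rfl⟩
      refine C_prod (subM M (T : Set B)) (fun t => p t.1) T' hC.base hc ?_ ?_
      · refine C_sub hC.base M p (T : Set B) T' ?_
        rw [e1]
        refine key X' ⟨Finset.filter_subset _ _, fun hs => ?_⟩
        exact hb.2 (Finset.mem_filter.1 (hs hb.1)).2
      · refine C_sub hC.base M p (T : Set B) (T'ᶜ) ?_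
        rw [e2]
        refine key Y' ⟨Finset.filter_subset _ _, fun hs => ?_⟩
        exact (Finset.mem_filter.1 (hs (hX ha))).2 ha

/-- **reduction to irreducible parabolic subgroups without label infinity** -/
theorem she_irr {C : ∀ (G : Type) [Group G], Prop} (hC : ClosedE C)
    (hW : ∀ (B : Type) [Finite B] (M : CoxeterMatrix B), C M.Group) {B : Type}
    (M : CoxeterMatrix B) (p : B → ℕ) (hg : Good M p)
    (h : ∀ T : Finset B, (∀ i ∈ T, ∀ j ∈ T, M i j ≠ 0) → Irr M (T : Set B) →
      C (Sh (subM M (T : Set B)) (fun t => p t.1))) : C (Sh M p) :=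
  she_mem hC hW M p hg fun T hT => irr_step hC M p h T.card T rfl hT

/-- every three generators without label infinity have two labels `2` -/
def LocRed {B : Type} (M : CoxeterMatrix B) : Prop :=
  ∀ i j k : B, i ≠ j → j ≠ k → i ≠ k → M i j ≠ 0 → M j k ≠ 0 → M i k ≠ 0 → M i j = 2 ∨ M j k = 2

theorem she_loc {C : ∀ (G : Type) [Group G], Prop} (hC : ClosedE C)
    (hW : ∀ (B : Type) [Finite B] (M : CoxeterMatrix B), C M.Group) {B : Type}
    (M : CoxeterMatrix B) (p : B → ℕ) (hg : Good M p) (hL : LocRed M) : C (Sh M p) := by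
  classical
  refine she_irr hC hW M p hg fun T hT hI => ?_
  by_cases h : ∀ i ∈ T, ∀ j ∈ T, i ≠ j → M i j = 2
  · refine C_comm_gens _ _ hC ?_
    intro i j
    by_cases hij : i = j
    · rw [hij]
    · have h1 := Sh.rel (M := subM M (T : Set B)) (p := fun t => p t.1) i j
      have h2 : subM M (T : Set B) i j = 2 := h i.1 i.2 j.1 j.2 (fun h' => hij (Subtype.ext h'))
      rw [h2, alt_two, alt_two] at h1
      exact h1
  · push Not at h
    obtain ⟨s, hs, t, ht, hst, h2⟩ := h
    have hT2 : ∀ b ∈ T, b = s ∨ b = t := by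
      by_contra hcon
      push Not at hcon
      obtain ⟨b, hb, hbs, hbt⟩ := hcon
      obtain ⟨i, hi, j, hj, hij⟩ := hI {s, t} (by
        rintro z (rfl | rfl)
        · exact hs
        · exact ht) ⟨s, Or.inl rfl⟩ ⟨b, hb, by
          rintro (h' | h')
          · exact hbs h'
          · exact hbt h'⟩
      have hjT : j ∈ T := hj.1
      have hjs : j ≠ s := fun h' => hj.2 (Or.inl h')
      have hjt : j ≠ t := fun h' => hj.2 (Or.inr h')
      rcases hi with rfl | rfl
      · have h3 := hL t i j (Ne.symm hst) (Ne.symm hjs) (Ne.symm hjt) (hT _ ht _ hs)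
          (hT _ hs _ hjT) (hT _ ht _ hjT)
        rcases h3 with h3 | h3
        · rw [M.symmetric] at h3
          exact h2 h3
        · exact hij h3
      · have h3 := hL s i j hst (Ne.symm hjt) (Ne.symm hjs) (hT _ hs _ ht)
          (hT _ ht _ hjT) (hT _ hs _ hjT)
        rcases h3 with h3 | h3
        · exact h2 h3
        · exact hij h3
    refine two_mem hC hW (subM M (T : Set B)) (fun t => p t.1) (hg.sub _)
      (s := ⟨s, hs⟩) (t := ⟨t, ht⟩) (fun h' => hst (congrArg Subtype.val h')) ?_
      (hT _ hs _ ht)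
    intro b
    rcases hT2 b.1 b.2 with h' | h'
    · left
      exact Subtype.ext h'
    · right
      exact Subtype.ext h'

end Pool.Agent.R665.She
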