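import Pool.Agent.R665.She.Fin
import Pool.Agent.R630.FJ.Cen

/-!
# Shephard groups with two generators, and direct products
-/

set_option autoImplicit false

namespace Pool.Agent.R665.She

open Pool.Agent.Helper741 Pool.Agent.Y110.FJ Pool.Agent.R630.FJ CoxeterSystem

/-- a homomorphism with central kernel to a group in `C` -/
theorem C_central {C : ∀ (G : Type) [Group G], Prop} (hC : ClosedE C) {G Q : Type} [Group G]
    [Group Q] (f : G →* Q) (hQ : C Q) (hk : f.ker ≤ Subgroup.center G) : C G := by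
  refine Pool.Agent.Y529.FJ.t_ext C hC G f.ker ?_ ?_ ?_
  · refine comm_mem' hC.base _ fun x y => ?_
    exact Subtype.ext (Subgroup.mem_center_iff.1 (hk y.2) x.1)
  · exact hC.base.of_injective _ _ (QuotientGroup.kerLift f) (QuotientGroup.kerLift_injective f) hQ
  · intro g _
    refine comm_mem' hC.base _ fun x y => ?_
    have h1 : f.ker ⊔ Subgroup.zpowers g ≤ Subgroup.centralizer {g} := by
      refine sup_le (hk.trans (Subgroup.center_le_centralizer _)) ?_
      rw [Subgroup.zpowers_le]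
      exact Subgroup.mem_centralizer_singleton_iff.2 rfl
    have h2 : f.ker ⊔ Subgroup.zpowers g ≤
        Subgroup.centralizer ((f.ker ⊔ Subgroup.zpowers g : Subgroup G) : Set G) := by
      refine sup_le (hk.trans (Subgroup.center_le_centralizer _)) ?_
      rw [Subgroup.zpowers_le]
      rw [Subgroup.mem_centralizer_iff]
      intro h hh
      exact Subgroup.mem_centralizer_singleton_iff.1 (h1 hh)
    exact Subtype.ext (Subgroup.mem_centralizer_iff.1 (h2 y.2) x.1 x.2)

theorem mul_pow_comm {G : Type} [Group G] (x y : G) (k : ℕ) : x * (y * x) ^ k = (x * y) ^ k * x := by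
  have h : SemiconjBy x (y * x) (x * y) := by
    show x * (y * x) = x * y * x
    rw [mul_assoc]
  exact h.pow_right k

theorem alt_inv_of_rel {G : Type} [Group G] {x y : G} {m : ℕ} (h : alt x y m = alt y x m) :
    alt x⁻¹ y⁻¹ m = (alt x y m)⁻¹ := by
  rcases Nat.even_or_odd' m with ⟨k, rfl | rfl⟩
  · rw [h, alt_mul_two, alt_mul_two, ← mul_inv_rev, inv_pow]
  · rw [alt_mul_two_add_one, alt_mul_two_add_one, ← mul_pow_comm, mul_inv_rev, ← mul_inv_rev,
      inv_pow]

section tri

/-- the Coxeter matrix of a triangle -/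
def triM (a b c : ℕ) (ha : a ≠ 1) (hb : b ≠ 1) (hc : c ≠ 1) : CoxeterMatrix (Fin 3) where
  M := !![1, a, c; a, 1, b; c, b, 1]
  isSymm := by
    ext i j
    fin_cases i <;> fin_cases j <;> rfl
  diagonal i := by fin_cases i <;> rfl
  off_diagonal i j h := by
    fin_cases i <;> fin_cases j <;> first | exact absurd rfl h | assumption

variable (a b c : ℕ) (ha : a ≠ 1) (hb : b ≠ 1) (hc : c ≠ 1)

/-- the generators of the Coxeter group -/
def rr (i : Fin 3) : (triM a b c ha hb hc).Group := (triM a b c ha hb hc).simple i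

theorem rr_sq (i : Fin 3) : rr a b c ha hb hc i * rr a b c ha hb hc i = 1 :=
  (triM a b c ha hb hc).toCoxeterSystem.simple_mul_simple_self i

theorem rr01 : (rr a b c ha hb hc 0 * rr a b c ha hb hc 1) ^ a = 1 :=
  (triM a b c ha hb hc).toCoxeterSystem.simple_mul_simple_pow 0 1

theorem rr10 : (rr a b c ha hb hc 1 * rr a b c ha hb hc 0) ^ a = 1 :=
  (triM a b c ha hb hc).toCoxeterSystem.simple_mul_simple_pow 1 0

theorem rr12 : (rr a b c ha hb hc 1 * rr a b c ha hb hc 2) ^ b = 1 :=
  (triM a b c ha hb hc).toCoxeterSystem.simple_mul_simple_pow 1 2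

theorem rr02 : (rr a b c ha hb hc 0 * rr a b c ha hb hc 2) ^ c = 1 :=
  (triM a b c ha hb hc).toCoxeterSystem.simple_mul_simple_pow 0 2

theorem rr20 : (rr a b c ha hb hc 2 * rr a b c ha hb hc 0) ^ c = 1 :=
  (triM a b c ha hb hc).toCoxeterSystem.simple_mul_simple_pow 2 0

theorem tri_lift {H : Type} [Group H] (A0 A1 A2 : H) (h0 : A0 * A0 = 1) (h1 : A1 * A1 = 1)
    (h2 : A2 * A2 = 1) (h01 : (A0 * A1) ^ a = 1) (h12 : (A1 * A2) ^ b = 1)
    (h02 : (A0 * A2) ^ c = 1) :
    ∃ g : (triM a b c ha hb hc).Group →* H, g (rr a b c ha hb hc 0) = A0 ∧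
      g (rr a b c ha hb hc 1) = A1 ∧ g (rr a b c ha hb hc 2) = A2 := by
  have i0 : A0⁻¹ = A0 := inv_eq_of_mul_eq_one_right h0
  have i1 : A1⁻¹ = A1 := inv_eq_of_mul_eq_one_right h1
  have i2 : A2⁻¹ = A2 := inv_eq_of_mul_eq_one_right h2
  have h10 : (A1 * A0) ^ a = 1 := by
    have : A1 * A0 = (A0 * A1)⁻¹ := by rw [mul_inv_rev, i0, i1]
    rw [this, inv_pow, h01, inv_one]
  have h21 : (A2 * A1) ^ b = 1 := by
    have : A2 * A1 = (A1 * A2)⁻¹ := by rw [mul_inv_rev, i2, i1]
    rw [this, inv_pow, h12, inv_one]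
  have h20 : (A2 * A0) ^ c = 1 := by
    have : A2 * A0 = (A0 * A2)⁻¹ := by rw [mul_inv_rev, i0, i2]
    rw [this, inv_pow, h02, inv_one]
  have hl : (triM a b c ha hb hc).IsLiftable ![A0, A1, A2] := by
    intro i j
    fin_cases i <;> fin_cases j
    · show (A0 * A0) ^ 1 = 1
      rw [h0, one_pow]
    · exact h01
    · exact h02
    · exact h10
    · show (A1 * A1) ^ 1 = 1
      rw [h1, one_pow]
    · exact h12
    · exact h20
    · exact h21
    · show (A2 * A2) ^ 1 = 1
      rw [h2, one_pow]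
  refine ⟨(triM a b c ha hb hc).toCoxeterSystem.lift ⟨_, hl⟩, ?_, ?_, ?_⟩
  · exact (triM a b c ha hb hc).toCoxeterSystem.lift_apply_simple hl 0
  · exact (triM a b c ha hb hc).toCoxeterSystem.lift_apply_simple hl 1
  · exact (triM a b c ha hb hc).toCoxeterSystem.lift_apply_simple hl 2

end tri

section iota

variable {B : Type} (M : CoxeterMatrix B) (p : B → ℕ)

/-- the endomorphism that inverts the generators -/
def io : Sh M p →* Sh M p :=
  Sh.lift (fun b => (Sh.gen M p b)⁻¹) (fun i j => by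
    rw [alt_inv_of_rel (Sh.rel i j), alt_inv_of_rel (Sh.rel i j).symm, Sh.rel])
    (fun b => by rw [inv_pow, Sh.pow, inv_one])

theorem io_gen (b : B) : io M p (Sh.gen M p b) = (Sh.gen M p b)⁻¹ := Sh.lift_gen _ _ _ b

theorem io_io (x : Sh M p) : io M p (io M p x) = x := by
  have h : (io M p).comp (io M p) = MonoidHom.id _ := by
    apply Sh.hom_ext
    intro b
    rw [MonoidHom.comp_apply, io_gen, map_inv, io_gen, inv_inv]
    rfl
  exact DFunLike.congr_fun h x

/-- the automorphism that inverts the generators -/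
def ia : MulAut (Sh M p) where
  toFun := io M p
  invFun := io M p
  left_inv := io_io M p
  right_inv := io_io M p
  map_mul' := map_mul _

theorem ia_sq : ia M p * ia M p = 1 := by
  ext x
  exact io_io M p x

theorem ia_conj (g : Sh M p) : ia M p * MulAut.conj g * ia M p = MulAut.conj (io M p g) := by
  ext x
  show io M p (g * io M p x * g⁻¹) = io M p g * x * (io M p g)⁻¹
  rw [map_mul, map_mul, io_io, map_inv]

theorem central_of {z : Sh M p} (h : ∀ b, Sh.gen M p b * z = z * Sh.gen M p b) :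
    z ∈ Subgroup.center (Sh M p) := by
  rw [Subgroup.mem_center_iff]
  intro g
  refine Sh.induction (P := fun g => g * z = z * g) ?_ h ?_ ?_ g
  · rw [one_mul, mul_one]
  · intro x y hx hy
    rw [mul_assoc, hy, ← mul_assoc, hx, mul_assoc]
  · intro x hx
    rw [eq_comm, ← mul_right_inj x, ← mul_assoc, hx, mul_assoc, mul_inv_cancel, mul_one,
      mul_inv_cancel_left]

theorem conj_central {z : Sh M p} (h : z ∈ Subgroup.center (Sh M p)) : MulAut.conj z = 1 := by
  ext x
  show z * x * z⁻¹ = x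
  rw [← Subgroup.mem_center_iff.1 h x, mul_assoc, mul_inv_cancel, mul_one]

theorem central_conj {z : Sh M p} (h : MulAut.conj z = 1) : z ∈ Subgroup.center (Sh M p) := by
  rw [Subgroup.mem_center_iff]
  intro x
  have h1 := DFunLike.congr_fun h x
  have h2 : z * x * z⁻¹ = x := h1
  rw [mul_inv_eq_iff_eq_mul] at h2
  exact h2.symm

end iota

/-- two generators -/
theorem two_mem {C : ∀ (G : Type) [Group G], Prop} (hC : ClosedE C)
    (hW : ∀ (B : Type) [Finite B] (M : CoxeterMatrix B), C M.Group) {B : Type}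
    (M : CoxeterMatrix B) (p : B → ℕ) (hg : Good M p) {s t : B} (hst : s ≠ t)
    (hB : ∀ b, b = s ∨ b = t) (h0 : M s t ≠ 0) : C (Sh M p) := by
  classical
  have h1 : M s t ≠ 1 := M.off_diagonal s t hst
  have hts : M t s = M s t := M.symmetric t s
  have hev : ∀ b, p b ≠ 1 := by
    intro b hb
    have := hg.1 b
    rw [hb] at this
    exact absurd this (by decide)
  set x := Sh.gen M p s with hx
  set y := Sh.gen M p t with hy
  have hrel : alt x y (M s t) = alt y x (M s t) := Sh.rel s t
  -- homomorphisms of the Shephard group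
  have hlift : ∀ {H : Type} [Group H] (X Y : H), alt X Y (M s t) = alt Y X (M s t) →
      X ^ p s = 1 → Y ^ p t = 1 → ∃ f : Sh M p →* H, f x = X ∧ f y = Y := by
    intro H _ X Y hr hX hY
    let F : B → H := fun b => if b = s then X else Y
    have hs : F s = X := if_pos rfl
    have ht : F t = Y := if_neg (Ne.symm hst)
    refine ⟨Sh.lift F ?_ ?_, ?_, ?_⟩
    · intro i j
      rcases hB i with rfl | rfl <;> rcases hB j with rfl | rfl
      · rfl
      · rw [hs, ht, hr]
      · rw [hs, ht, hts, hr]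
      · rfl
    · intro b
      rcases hB b with rfl | rfl
      · rw [hs, hX]
      · rw [ht, hY]
    · exact (Sh.lift_gen _ _ _ s).trans hs
    · exact (Sh.lift_gen _ _ _ t).trans ht
  have hext : ∀ {H : Type} [Group H] (f g : Sh M p →* H), f x = g x → f y = g y → f = g := by
    intro H _ f g h2 h3
    apply Sh.hom_ext
    intro b
    rcases hB b with rfl | rfl
    · exact h2
    · exact h3
  have hcen : ∀ z : Sh M p, x * z = z * x → y * z = z * y → z ∈ Subgroup.center (Sh M p) := by
    intro z h2 h3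
    apply central_of
    intro b
    rcases hB b with rfl | rfl
    · exact h2
    · exact h3
  have hixx : io M p x = x⁻¹ := io_gen M p s
  have hiyy : io M p y = y⁻¹ := io_gen M p t
  rcases Nat.even_or_odd' (M s t) with ⟨k, hk | hk⟩
  · -- even label
    by_cases hk1 : k = 1
    · -- commuting generators
      rw [hk, hk1, mul_one, alt_two, alt_two] at hrel
      refine C_central hC (1 : Sh M p →* (Multiplicative ℤ)) hC.base.int ?_
      intro z _
      have hxc : x ∈ Subgroup.center (Sh M p) := hcen x rfl hrel.symm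
      have hyc : y ∈ Subgroup.center (Sh M p) := hcen y hrel rfl
      have htop : (⊤ : Subgroup (Sh M p)) ≤ Subgroup.center (Sh M p) := by
        rw [← Sh.closure_range_gen, Subgroup.closure_le]
        rintro _ ⟨b, rfl⟩
        rcases hB b with rfl | rfl
        · exact hxc
        · exact hyc
      exact htop trivial
    · have hr : (x * y) ^ k = (y * x) ^ k := by
        rw [hk, alt_mul_two, alt_mul_two] at hrel
        exact hrel
      have hz : (x * y) ^ k ∈ Subgroup.center (Sh M p) := by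
        apply hcen
        · conv_lhs => rw [hr]
          rw [mul_pow_comm]
        · rw [mul_pow_comm, ← hr]
      set r := rr (p s) (p t) k (hev s) (hev t) hk1 with hrdef
      have q0 : r 0 * r 0 = 1 := rr_sq _ _ _ _ _ _ 0
      have q1 : r 1 * r 1 = 1 := rr_sq _ _ _ _ _ _ 1
      have q2 : r 2 * r 2 = 1 := rr_sq _ _ _ _ _ _ 2
      obtain ⟨f, hf1, hf2⟩ := hlift (r 0 * r 1) (r 1 * r 2) (by
        have e1 : r 0 * r 1 * (r 1 * r 2) = r 0 * r 2 := by
          rw [mul_assoc, ← mul_assoc (r 1) (r 1), q1, one_mul]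
        have e2 : (r 1 * r 2 * (r 0 * r 1)) ^ k = 1 := by
          have e3 : r 1 * r 2 * (r 0 * r 1) = r 1 * (r 2 * r 0) * (r 1)⁻¹ := by
            rw [inv_eq_of_mul_eq_one_right q1]
            group
          rw [e3, conj_pow, rr20, mul_one, mul_inv_cancel]
        rw [hk, alt_mul_two, alt_mul_two, e1, e2, rr02]) (rr01 _ _ _ _ _ _) (rr12 _ _ _ _ _ _)
      obtain ⟨g, hg0, hg1, hg2⟩ := tri_lift (p s) (p t) k (hev s) (hev t) hk1
        (MulAut.conj x * ia M p) (ia M p) (ia M p * MulAut.conj y)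
        (by rw [mul_assoc, ← mul_assoc (ia M p), ia_conj, hixx, ← map_mul, mul_inv_cancel, map_one])
        (ia_sq M p)
        (by rw [← mul_assoc, ia_conj, hiyy, ← map_mul, inv_mul_cancel, map_one])
        (by rw [mul_assoc, ia_sq, mul_one, ← map_pow, Sh.pow, map_one])
        (by rw [← mul_assoc, ia_sq, one_mul, ← map_pow, Sh.pow, map_one])
        (by rw [mul_assoc, ← mul_assoc (ia M p), ia_sq, one_mul, ← map_mul, ← map_pow,
              conj_central M p hz])
      have hgf : g.comp f = MulAut.conj := by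
        apply hext
        · rw [MonoidHom.comp_apply, hf1, map_mul, hrdef, hg0, hg1, mul_assoc, ia_sq, mul_one]
        · rw [MonoidHom.comp_apply, hf2, map_mul, hrdef, hg1, hg2, ← mul_assoc, ia_sq, one_mul]
      refine C_central hC f (hW _ _) fun z hz' => ?_
      apply central_conj
      rw [← hgf, MonoidHom.comp_apply, MonoidHom.mem_ker.1 hz', map_one]
  · -- odd label
    have hpp : p s = p t := hg.2 s t ⟨k, hk⟩
    have hc1 : 2 * k + 1 ≠ 1 := by rw [← hk]; exact h1
    have hd1 : alt x y (M s t) = (x * y) ^ k * x := by rw [hk, alt_mul_two_add_one]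
    have hd2 : alt y x (M s t) = (y * x) ^ k * y := by rw [hk, alt_mul_two_add_one]
    set Δ := (x * y) ^ k * x with hΔ
    have hΔ2 : Δ = (y * x) ^ k * y := by rw [← hd1, hrel, hd2]
    have hxΔ : Δ * x = y * Δ := by
      conv_lhs => rw [hΔ2]
      rw [hΔ, ← mul_assoc, mul_pow_comm]
    have hyΔ : Δ * y = x * Δ := by
      rw [hΔ2, ← mul_assoc, mul_pow_comm, ← hΔ, ← hΔ2, hΔ]
    have hΔc : Δ * Δ ∈ Subgroup.center (Sh M p) := by
      apply hcen
      · rw [← mul_assoc, ← hyΔ, mul_assoc, ← hxΔ, ← mul_assoc]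
      · rw [← mul_assoc, ← hxΔ, mul_assoc, ← hyΔ, ← mul_assoc]
    have hiΔ : io M p Δ = Δ⁻¹ := by
      have e1 := alt_inv_of_rel hrel
      rw [← hixx, ← hiyy, ← map_alt, hd1] at e1
      exact e1
    have hyx : (y * x) ^ (2 * k + 1) = Δ * Δ := by
      have e : Δ * Δ = ((y * x) ^ k * y) * ((x * y) ^ k * x) := congrArg₂ (· * ·) hΔ2 hΔ
      rw [e, ← mul_pow_comm x y, mul_assoc, ← mul_assoc y, ← pow_succ', ← pow_add]
      congr 1
      ring
    have hxD : x⁻¹ * Δ = (y * x) ^ k := by
      rw [hΔ, ← mul_pow_comm, inv_mul_cancel_left]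
    set r := rr (p s) 2 (2 * k + 1) (hev s) (by decide) hc1 with hrdef
    have q0 : r 0 * r 0 = 1 := rr_sq _ _ _ _ _ _ 0
    have q1 : r 1 * r 1 = 1 := rr_sq _ _ _ _ _ _ 1
    have q2 : r 2 * r 2 = 1 := rr_sq _ _ _ _ _ _ 2
    have i0 : (r 0)⁻¹ = r 0 := inv_eq_of_mul_eq_one_right q0
    have i1 : (r 1)⁻¹ = r 1 := inv_eq_of_mul_eq_one_right q1
    have i2 : (r 2)⁻¹ = r 2 := inv_eq_of_mul_eq_one_right q2
    obtain ⟨f, hf1, hf2⟩ := hlift (r 1 * r 0) (r 1 * r 2 * (r 1 * r 0) * (r 1 * r 2)⁻¹) (by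
      set S := r 1 * r 0 with hS
      set D := r 1 * r 2 with hD
      have hDD : D * D = 1 := by
        have := rr12 (p s) 2 (2 * k + 1) (hev s) (by decide) hc1
        rw [pow_two] at this
        exact this
      have hDi : D⁻¹ = D := inv_eq_of_mul_eq_one_right hDD
      have hu : S⁻¹ * D = r 0 * r 2 := by
        rw [hS, hD, mul_inv_rev, i0, i1, mul_assoc, ← mul_assoc (r 1), q1, one_mul]
      have hum : (S⁻¹ * D) ^ (2 * k + 1) = 1 := by
        rw [hu]
        exact rr02 _ _ _ _ _ _
      have hui : (S⁻¹ * D)⁻¹ = D * S := by rw [mul_inv_rev, inv_inv, hDi]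
      have hTS : (D * S * D⁻¹ * S) ^ k = S⁻¹ * D := by
        have e1 : D * S * D⁻¹ * S = ((S⁻¹ * D)⁻¹) ^ 2 := by
          rw [hui, hDi, pow_two]
          group
        rw [e1, ← pow_mul, inv_pow, inv_eq_iff_mul_eq_one, ← pow_succ, hum]
      have e2 : alt S (D * S * D⁻¹) (M s t) = D := by
        rw [hk, alt_mul_two_add_one, ← mul_pow_comm, hTS, mul_inv_cancel_left]
      have e3 : alt (D * S * D⁻¹) S (M s t) = D := by
        rw [hk, alt_mul_two_add_one, hTS]
        calc S⁻¹ * D * (D * S * D⁻¹) = S⁻¹ * (D * D) * S * D⁻¹ := by group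
          _ = D := by rw [hDD, hDi]; group
      rw [e2, e3]) (rr10 _ _ _ _ _ _) (by
      rw [conj_pow, ← hpp, rr10, mul_one, mul_inv_cancel])
    obtain ⟨g, hg0, hg1, hg2⟩ := tri_lift (p s) 2 (2 * k + 1) (hev s) (by decide) hc1
      (MulAut.conj x⁻¹ * ia M p) (ia M p) (ia M p * MulAut.conj Δ)
      (by rw [mul_assoc, ← mul_assoc (ia M p), ia_conj, map_inv (io M p), hixx, ← map_mul, inv_inv,
            inv_mul_cancel, map_one])
      (ia_sq M p)
      (by rw [← mul_assoc, ia_conj, hiΔ, ← map_mul, inv_mul_cancel, map_one])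
      (by rw [mul_assoc, ia_sq, mul_one, ← map_pow, inv_pow, Sh.pow, inv_one, map_one])
      (by rw [← mul_assoc, ia_sq, one_mul, ← map_pow, pow_two, conj_central M p hΔc])
      (by
        rw [mul_assoc, ← mul_assoc (ia M p), ia_sq, one_mul, ← map_mul, ← map_pow, hxD, ← pow_mul,
          mul_comm k, pow_mul, hyx, conj_central M p (Subgroup.pow_mem _ hΔc k)])
    have hgf : g.comp f = MulAut.conj := by
      have hi : (ia M p)⁻¹ = ia M p := inv_eq_of_mul_eq_one_right (ia_sq M p)
      have e1 : g (r 1 * r 0) = MulAut.conj x := by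
        rw [map_mul, hrdef, hg0, hg1]
        have e2 := ia_conj M p x⁻¹
        rw [map_inv (io M p), hixx, inv_inv, mul_assoc] at e2
        exact e2
      have e3 : g (r 1 * r 2) = MulAut.conj Δ := by
        rw [map_mul, hrdef, hg1, hg2, ← mul_assoc, ia_sq, one_mul]
      apply hext
      · rw [MonoidHom.comp_apply, hf1, e1]
      · rw [MonoidHom.comp_apply, hf2, map_mul, map_mul, map_inv, e1, e3, ← map_mul, ← map_inv,
          ← map_mul, hxΔ, mul_inv_cancel_right]
    refine C_central hC f (hW _ _) fun z hz' => ?_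
    apply central_conj
    rw [← hgf, MonoidHom.comp_apply, MonoidHom.mem_ker.1 hz', map_one]

end Pool.Agent.R665.She
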